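import Pool.Agent.BFE.Base

set_option autoImplicit false

open MeasureTheory Set Filter Topology

namespace BFE

open BIL

private theorem E1a_dir_cont : Continuous dir := by
  unfold dir
  exact continuous_subtype_val.comp AddCircle.continuous_toCircle

private theorem E1a_dir_pi (θ : Ang) : dir (θ + ((Real.pi : ℝ) : Ang)) = -dir θ := by
  unfold dir
  have h1 : ((AddCircle.toCircle (((Real.pi : ℝ)) : Ang) : Circle) : ℂ) = -1 := by
    rw [AddCircle.toCircle_apply_mk, Circle.coe_exp]
    have e : 2 * Real.pi / (2 * Real.pi) * Real.pi = Real.pi := by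
      have := Real.pi_pos
      field_simp
    rw [e, Complex.exp_pi_mul_I]
  rw [AddCircle.toCircle_add, Circle.coe_mul, h1]
  ring

/-- [E1] -/
theorem S_facts : (∀ (s t : ℝ) (z : ℂ × Ang), S s (S t z) = S (s + t) z) ∧
    (∀ z : ℂ × Ang, S 0 z = z) ∧ (Continuous fun q : ℝ × (ℂ × Ang) => S q.1 q.2) ∧
    ∀ t : ℝ, MeasurePreserving (S t) (volume : Measure (ℂ × Ang)) volume := by
  refine ⟨fun s t z => ?_, fun z => ?_, ?_, fun t => ?_⟩
  · unfold S
    refine Prod.ext ?_ rfl
    show z.1 + (t : ℂ) * dir z.2 + (s : ℂ) * dir z.2 = z.1 + ((s + t : ℝ) : ℂ) * dir z.2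
    push_cast
    ring
  · unfold S
    refine Prod.ext ?_ rfl
    show z.1 + ((0 : ℝ) : ℂ) * dir z.2 = z.1
    rw [Complex.ofReal_zero, zero_mul, add_zero]
  · unfold S
    refine Continuous.prodMk ?_ (continuous_snd.comp continuous_snd)
    refine (continuous_fst.comp continuous_snd).add ?_
    exact (Complex.continuous_ofReal.comp continuous_fst).mul
      (E1a_dir_cont.comp (continuous_snd.comp continuous_snd))
  · have hsk : MeasurePreserving (fun p : Ang × ℂ => (p.1, p.2 + (t : ℂ) * dir p.1))
        ((volume : Measure Ang).prod (volume : Measure ℂ))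
        ((volume : Measure Ang).prod (volume : Measure ℂ)) := by
      refine MeasurePreserving.skew_product (f := id) (g := fun (a : Ang) (x : ℂ) =>
        x + (t : ℂ) * dir a) (MeasurePreserving.id _) ?_ ?_
      · refine Continuous.measurable ?_
        exact continuous_snd.add (continuous_const.mul (E1a_dir_cont.comp continuous_fst))
      · refine Eventually.of_forall fun a => ?_
        exact (measurePreserving_add_right (volume : Measure ℂ) ((t : ℂ) * dir a)).map_eq
    have h1 := (Measure.measurePreserving_swap (μ := (volume : Measure Ang))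
      (ν := (volume : Measure ℂ))).comp (hsk.comp (Measure.measurePreserving_swap
        (μ := (volume : Measure ℂ)) (ν := (volume : Measure Ang))))
    exact h1

/-- [E1] -/
theorem rv_facts : (∀ z : ℂ × Ang, rv (rv z) = z) ∧ (∀ (t : ℝ) (z : ℂ × Ang), rv (S t z) = S (-t) (rv z)) ∧
    Continuous rv ∧ MeasurePreserving rv (volume : Measure (ℂ × Ang)) volume ∧
    ∀ z : ℂ × Ang, dir (rv z).2 = -dir z.2 := by
  refine ⟨fun z => ?_, fun t z => ?_, ?_, ?_, fun z => E1a_dir_pi _⟩
  · unfold rv
    refine Prod.ext rfl ?_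
    show z.2 + ((Real.pi : ℝ) : Ang) + ((Real.pi : ℝ) : Ang) = z.2
    have h1 : ((Real.pi : ℝ) : Ang) + ((Real.pi : ℝ) : Ang) = 0 := by
      rw [← AddCircle.coe_add, ← two_mul]
      exact AddCircle.coe_period _
    rw [add_assoc, h1, add_zero]
  · unfold rv S
    refine Prod.ext ?_ rfl
    show z.1 + (t : ℂ) * dir z.2 = z.1 + ((-t : ℝ) : ℂ) * dir (z.2 + ((Real.pi : ℝ) : Ang))
    rw [E1a_dir_pi]
    push_cast
    ring
  · unfold rv
    exact continuous_fst.prodMk (continuous_snd.add continuous_const)
  · have h1 := (MeasurePreserving.id (volume : Measure ℂ)).prod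
      (measurePreserving_add_right (volume : Measure Ang) ((Real.pi : ℝ) : Ang))
    exact h1

end BFE
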