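import Pool.Agent.BFE.Base
import Pool.Agent.BIL.C1

/-! # BFE: E1b, reflections -/

set_option autoImplicit false

open MeasureTheory Set Filter Topology

namespace BFE

open BIL

variable {n : ℕ} {P : Set ℂ} {a b : Fin n → ℂ}

theorem e1b_conj_dir (x : Ang) : dir x * (starRingEnd ℂ) (dir x) = 1 := by
  rw [Complex.mul_conj]
  unfold dir
  rw [Circle.normSq_coe]
  norm_num

theorem e1b_dir_add (x y : Ang) : dir (x + y) = dir x * dir y := by
  unfold dir
  rw [AddCircle.toCircle_add, Circle.coe_mul]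

theorem e1b_dir_sub (x y : Ang) : dir (x - y) = dir x * (starRingEnd ℂ) (dir y) := by
  have h1 : dir (x - y) * dir y = dir x := by rw [← e1b_dir_add, sub_add_cancel]
  rw [← h1]
  linear_combination (-dir (x - y)) * e1b_conj_dir y

theorem e1b_unit {w : ℂ} (hw : w ≠ 0) : w / (starRingEnd ℂ) w * (starRingEnd ℂ) (w / (starRingEnd ℂ) w) = 1 := by
  have h : (starRingEnd ℂ) w ≠ 0 := (map_ne_zero _).2 hw
  rw [map_div₀, Complex.conj_conj]
  field_simp

theorem e1b_dir {w : ℂ} (hw : w ≠ 0) (x : Ang) :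
    dir ((2 : ℕ) • ang w - x) = w / (starRingEnd ℂ) w * (starRingEnd ℂ) (dir x) := by
  have h : (starRingEnd ℂ) w ≠ 0 := (map_ne_zero _).2 hw
  have h1 := c1_dir_ang w
  have h2 : (starRingEnd ℂ) w = (‖w‖ : ℂ) * (starRingEnd ℂ) (dir (ang w)) := by
    conv_lhs => rw [← h1]
    rw [map_mul, Complex.conj_ofReal]
  have h3 : dir (ang w) * dir (ang w) = w / (starRingEnd ℂ) w := by
    rw [eq_div_iff h, h2]
    conv_rhs => rw [← h1]
    linear_combination (dir (ang w) * (‖w‖ : ℂ)) * e1b_conj_dir (ang w)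
  rw [e1b_dir_sub, two_nsmul, e1b_dir_add, h3]

theorem e1b_pi : ((Real.pi : ℝ) : Ang) + ((Real.pi : ℝ) : Ang) = 0 := by
  have h : ((Real.pi : ℝ) : Ang) + ((Real.pi : ℝ) : Ang) = ((Real.pi + Real.pi : ℝ) : Ang) := rfl
  rw [h, ← two_mul]
  exact AddCircle.coe_period _

theorem e1b_cr (x y : ℂ) : cr x y = ((starRingEnd ℂ) x * y).im := by
  unfold cr
  rw [Complex.mul_im, Complex.conj_re, Complex.conj_im]
  ring

theorem e1b_mp1 (c : ℂ) {w : ℂ} (hw : w ≠ 0) :
    MeasurePreserving (fun x : ℂ => c + w / (starRingEnd ℂ) w * (starRingEnd ℂ) (x - c)) volume volume := by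
  have hn : ‖w / (starRingEnd ℂ) w‖ = 1 := by
    rw [norm_div, RCLike.norm_conj, div_self (norm_ne_zero_iff.2 hw)]
  let u : Circle := ⟨w / (starRingEnd ℂ) w, mem_sphere_zero_iff_norm.2 hn⟩
  have h1 : MeasurePreserving (fun x : ℂ => x - c) volume volume := measurePreserving_sub_right volume c
  have h2 : MeasurePreserving (Complex.conjLIE : ℂ ≃ₗᵢ[ℝ] ℂ) volume volume := LinearIsometryEquiv.measurePreserving _
  have h3 : MeasurePreserving (rotation u : ℂ ≃ₗᵢ[ℝ] ℂ) volume volume := LinearIsometryEquiv.measurePreserving _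
  have h4 : MeasurePreserving (fun x : ℂ => c + x) volume volume := measurePreserving_add_left volume c
  exact h4.comp (h3.comp (h2.comp h1))

theorem rho_facts (hne : ∀ i, a i ≠ b i) (i : Fin n) :
    (∀ z : ℂ × Ang, rho a b i (rho a b i z) = z) ∧
    (∀ (t : ℝ) (z : ℂ × Ang), rho a b i (S t z) = S t (rho a b i z)) ∧
    (∀ z : ℂ × Ang, rho a b i (rv z) = rv (rho a b i z)) ∧ Continuous (rho a b i) ∧
    MeasurePreserving (rho a b i) (volume : Measure (ℂ × Ang)) volume ∧
    (∀ z : ℂ × Ang, z.1 ∈ segment ℝ (a i) (b i) → (rho a b i z).1 = z.1) ∧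
    ∀ z : ℂ × Ang, cr (b i - a i) (dir (rho a b i z).2) = -cr (b i - a i) (dir z.2) := by
  have hw : b i - a i ≠ 0 := sub_ne_zero.2 (hne i).symm
  have hc : (starRingEnd ℂ) (b i - a i) ≠ 0 := (map_ne_zero _).2 hw
  refine ⟨?_, ?_, ?_, ?_, ?_, ?_, ?_⟩
  · intro z
    refine Prod.ext ?_ ?_
    · show a i + (b i - a i) / (starRingEnd ℂ) (b i - a i) * (starRingEnd ℂ)
        (a i + (b i - a i) / (starRingEnd ℂ) (b i - a i) * (starRingEnd ℂ) (z.1 - a i) - a i) = z.1
      rw [add_sub_cancel_left, map_mul, Complex.conj_conj]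
      linear_combination (z.1 - a i) * e1b_unit hw
    · show (2 : ℕ) • ang (b i - a i) - ((2 : ℕ) • ang (b i - a i) - z.2) = z.2
      rw [sub_sub_cancel]
  · intro t z
    refine Prod.ext ?_ rfl
    show a i + (b i - a i) / (starRingEnd ℂ) (b i - a i) * (starRingEnd ℂ) (z.1 + (t : ℂ) * dir z.2 - a i) =
      a i + (b i - a i) / (starRingEnd ℂ) (b i - a i) * (starRingEnd ℂ) (z.1 - a i) +
        (t : ℂ) * dir ((2 : ℕ) • ang (b i - a i) - z.2)
    have e : (starRingEnd ℂ) (z.1 + (t : ℂ) * dir z.2 - a i) = (starRingEnd ℂ) (z.1 - a i) + (t : ℂ) * (starRingEnd ℂ) (dir z.2) := by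
      rw [map_sub, map_sub, map_add, map_mul, Complex.conj_ofReal]
      ring
    rw [e1b_dir hw, e]
    ring
  · intro z
    refine Prod.ext rfl ?_
    show (2 : ℕ) • ang (b i - a i) - (z.2 + ((Real.pi : ℝ) : Ang)) =
      (2 : ℕ) • ang (b i - a i) - z.2 + ((Real.pi : ℝ) : Ang)
    rw [sub_add_eq_sub_sub, sub_eq_iff_eq_add, add_assoc, e1b_pi, add_zero]
  · have h1 : Continuous fun z : ℂ × Ang => a i + (b i - a i) / (starRingEnd ℂ) (b i - a i) * (starRingEnd ℂ) (z.1 - a i) :=
      continuous_const.add (continuous_const.mul (Complex.continuous_conj.comp (continuous_fst.sub continuous_const)))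
    have h2 : Continuous fun z : ℂ × Ang => (2 : ℕ) • ang (b i - a i) - z.2 := by fun_prop
    exact h1.prodMk h2
  · have h1 := e1b_mp1 (a i) hw
    have h2 : MeasurePreserving (fun x : Ang => (2 : ℕ) • ang (b i - a i) - x) volume volume :=
      Measure.measurePreserving_sub_left volume _
    rw [Measure.volume_eq_prod]
    exact h1.prod h2
  · rintro z hz
    rw [segment_eq_image'] at hz
    obtain ⟨s, -, hs⟩ := hz
    show a i + (b i - a i) / (starRingEnd ℂ) (b i - a i) * (starRingEnd ℂ) (z.1 - a i) = z.1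
    have hs' : z.1 - a i = (s : ℂ) * (b i - a i) := by
      rw [← hs]
      show a i + (s : ℝ) • (b i - a i) - a i = _
      rw [add_sub_cancel_left, Complex.real_smul]
    rw [hs', map_mul, Complex.conj_ofReal]
    have e : (b i - a i) / (starRingEnd ℂ) (b i - a i) * ((s : ℂ) * (starRingEnd ℂ) (b i - a i)) = (s : ℂ) * (b i - a i) := by
      field_simp
    rw [e, ← hs']
    ring
  · intro z
    show cr (b i - a i) (dir ((2 : ℕ) • ang (b i - a i) - z.2)) = -cr (b i - a i) (dir z.2)
    rw [e1b_dir hw, e1b_cr, e1b_cr]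
    have e : (starRingEnd ℂ) (b i - a i) * ((b i - a i) / (starRingEnd ℂ) (b i - a i) * (starRingEnd ℂ) (dir z.2)) =
        (starRingEnd ℂ) ((starRingEnd ℂ) (b i - a i) * dir z.2) := by
      rw [map_mul, Complex.conj_conj]
      field_simp
    rw [e, Complex.conj_im]

theorem G_facts (hne : ∀ i, a i ≠ b i) :
    (∀ l l' (z : ℂ × Ang), G a b (l ++ l') z = G a b l' (G a b l z)) ∧
    (∀ l (z : ℂ × Ang), G a b l.reverse (G a b l z) = z) ∧
    (∀ l (t : ℝ) (z : ℂ × Ang), G a b l (S t z) = S t (G a b l z)) ∧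
    (∀ l (z : ℂ × Ang), G a b l (rv z) = rv (G a b l z)) ∧ (∀ l, Continuous (G a b l)) ∧
    ∀ l, MeasurePreserving (G a b l) (volume : Measure (ℂ × Ang)) volume := by
  have happ : ∀ l l' (z : ℂ × Ang), G a b (l ++ l') z = G a b l' (G a b l z) := by
    intro l l'
    induction l with
    | nil => intro z; rfl
    | cons i l ih =>
      intro z
      exact ih (rho a b i z)
  refine ⟨happ, ?_, ?_, ?_, ?_, ?_⟩
  · intro l
    induction l with
    | nil => intro z; rfl
    | cons i l ih =>
      intro z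
      rw [List.reverse_cons, happ]
      show G a b [i] (G a b l.reverse (G a b l (rho a b i z))) = z
      rw [ih (rho a b i z)]
      exact (rho_facts hne i).1 z
  · intro l
    induction l with
    | nil => intro t z; rfl
    | cons i l ih =>
      intro t z
      show G a b l (rho a b i (S t z)) = S t (G a b l (rho a b i z))
      rw [(rho_facts hne i).2.1 t z]
      exact ih t _
  · intro l
    induction l with
    | nil => intro z; rfl
    | cons i l ih =>
      intro z
      show G a b l (rho a b i (rv z)) = rv (G a b l (rho a b i z))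
      rw [(rho_facts hne i).2.2.1 z]
      exact ih _
  · intro l
    induction l with
    | nil => exact continuous_id
    | cons i l ih => exact ih.comp (rho_facts hne i).2.2.2.1
  · intro l
    induction l with
    | nil => exact MeasurePreserving.id _
    | cons i l ih => exact ih.comp (rho_facts hne i).2.2.2.2.1

end BFE
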