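import Pool.Agent.BFE.Base

/-! # BFE: row E2a -/

set_option autoImplicit false

open MeasureTheory Set Filter Topology

namespace BFE

open BIL

variable {n : ℕ} {P : Set ℂ} {a b : Fin n → ℂ}

theorem E2a_cr_mul (r : ℝ) (x y : ℂ) : cr x ((r : ℂ) * y) = r * cr x y := by
  simp only [cr, Complex.mul_re, Complex.mul_im, Complex.ofReal_re, Complex.ofReal_im]; ring

theorem E2a_cr_self (x : ℂ) : cr x x = 0 := by
  unfold cr; ring

theorem E2a_cr_sub (x y z : ℂ) : cr x (y - z) = cr x y - cr x z := by
  simp only [cr, Complex.sub_re, Complex.sub_im]; ring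

theorem E2a_cr_add (x y z : ℂ) : cr x (y + z) = cr x y + cr x z := by
  simp only [cr, Complex.add_re, Complex.add_im]; ring

theorem E2a_cr_cont (x : ℂ) : Continuous fun y : ℂ => cr x y := by
  unfold cr; fun_prop

/-- a vector with cross product zero is a multiple -/
theorem E2a_par {v x : ℂ} (hv : v ≠ 0) (h : cr v x = 0) : ∃ s : ℝ, x = (s : ℂ) * v := by
  have hn : 0 < v.re * v.re + v.im * v.im := by
    have h1 : v.re ≠ 0 ∨ v.im ≠ 0 := by
      by_contra hc
      push Not at hc
      exact hv (Complex.ext hc.1 hc.2)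
    rcases h1 with h1 | h1
    · have := mul_self_pos.mpr h1
      nlinarith [mul_self_nonneg v.im]
    · have := mul_self_pos.mpr h1
      nlinarith [mul_self_nonneg v.re]
  unfold cr at h
  refine ⟨(v.re * x.re + v.im * x.im) / (v.re * v.re + v.im * v.im), ?_⟩
  apply Complex.ext
  · simp only [Complex.mul_re, Complex.ofReal_re, Complex.ofReal_im, zero_mul, sub_zero]
    rw [div_mul_eq_mul_div, eq_div_iff hn.ne']
    linear_combination (-v.im) * h
  · simp only [Complex.mul_im, Complex.ofReal_re, Complex.ofReal_im, zero_mul, add_zero]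
    rw [div_mul_eq_mul_div, eq_div_iff hn.ne']
    linear_combination (v.re) * h

/-- [E2] near a regular boundary point the interior of `P` is one side of the line (or empty). -/
theorem reg_nbhd (hP : IsPolygon P a b) {i : Fin n} {y : ℂ} (hy : Reg a b i y) :
    ∃ ε σ : ℝ, 0 < ε ∧ (σ = 1 ∨ σ = -1 ∨ σ = 0) ∧ ∀ x : ℂ, ‖x - y‖ < ε →
      ((x ∈ frontier P ↔ cr (b i - a i) (x - y) = 0) ∧ (∀ j, x ∈ segment ℝ (a j) (b j) ↔
        (j = i ∧ cr (b i - a i) (x - y) = 0)) ∧
      (x ∈ interior P ↔ 0 < σ * cr (b i - a i) (x - y))) := by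
  obtain ⟨hy1, hy2⟩ := hy
  have hv : b i - a i ≠ 0 := sub_ne_zero.mpr (hP.ne i).symm
  have hvn : 0 < ‖b i - a i‖ := norm_pos_iff.mpr hv
  obtain ⟨t, ⟨ht0, ht1⟩, hyt⟩ : ∃ t : ℝ, t ∈ Ioo (0 : ℝ) 1 ∧ a i + t • (b i - a i) = y := by
    rw [openSegment_eq_image'] at hy1
    exact hy1
  have hyt' : y = a i + (t : ℂ) * (b i - a i) := by
    rw [← hyt, Complex.real_smul]
  -- the other sides
  have hev : ∀ᶠ x in 𝓝 y, ∀ j, j ≠ i → x ∉ segment ℝ (a j) (b j) := by
    rw [Filter.eventually_all]
    intro j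
    by_cases hj : j = i
    · exact Filter.Eventually.of_forall fun x h => absurd hj h
    · have hcl : IsClosed (segment ℝ (a j) (b j)) := by
        rw [← closure_openSegment]
        exact isClosed_closure
      filter_upwards [hcl.isOpen_compl.mem_nhds (hy2 j hj)] with x hx _ using hx
  obtain ⟨ε₁, hε₁, hε₁'⟩ := Metric.eventually_nhds_iff.mp hev
  obtain ⟨ε, hε, hεa, hεb, hεc⟩ : ∃ ε : ℝ, 0 < ε ∧ ε ≤ ε₁ ∧ ε ≤ t * ‖b i - a i‖ ∧
      ε ≤ (1 - t) * ‖b i - a i‖ := by
    refine ⟨min ε₁ (min (t * ‖b i - a i‖) ((1 - t) * ‖b i - a i‖)), ?_, min_le_left _ _,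
      (min_le_right _ _).trans (min_le_left _ _), (min_le_right _ _).trans (min_le_right _ _)⟩
    refine lt_min hε₁ (lt_min (mul_pos ht0 hvn) (mul_pos (by linarith) hvn))
  have hseg : ∀ x : ℂ, ‖x - y‖ < ε → ∀ j, x ∈ segment ℝ (a j) (b j) ↔
      (j = i ∧ cr (b i - a i) (x - y) = 0) := by
    intro x hx j
    constructor
    · intro hxj
      have hji : j = i := by
        by_contra hne
        exact hε₁' (by rw [dist_eq_norm]; exact hx.trans_le hεa) j hne hxj
      refine ⟨hji, ?_⟩
      rw [hji, segment_eq_image'] at hxj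
      obtain ⟨t', -, hx'⟩ := hxj
      have e : x - y = ((t' - t : ℝ) : ℂ) * (b i - a i) := by
        simp only [Complex.real_smul] at hx'
        rw [← hx', hyt']
        push_cast
        ring
      rw [e, E2a_cr_mul, E2a_cr_self, mul_zero]
    · rintro ⟨rfl, h0⟩
      obtain ⟨s, hs⟩ := E2a_par hv h0
      have hsn : |s| * ‖b j - a j‖ < ε := by
        rw [hs, norm_mul, Complex.norm_real, Real.norm_eq_abs] at hx
        exact hx
      have h1 : |s| < t := by
        have := hsn.trans_le hεb
        exact lt_of_mul_lt_mul_right this hvn.le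
      have h2 : |s| < 1 - t := by
        have := hsn.trans_le hεc
        exact lt_of_mul_lt_mul_right this hvn.le
      rw [abs_lt] at h1 h2
      rw [segment_eq_image']
      refine ⟨t + s, ⟨by linarith [h1.1], by linarith [h2.2]⟩, ?_⟩
      simp only [Complex.real_smul]
      have e : x = y + (s : ℂ) * (b j - a j) := by rw [← hs]; ring
      rw [e, hyt']
      push_cast
      ring
  have hfr : ∀ x : ℂ, ‖x - y‖ < ε → (x ∈ frontier P ↔ cr (b i - a i) (x - y) = 0) := by
    intro x hx
    rw [hP.frontier_eq, mem_iUnion]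
    constructor
    · rintro ⟨j, hj⟩
      exact ((hseg x hx j).mp hj).2
    · intro h
      exact ⟨i, (hseg x hx i).mpr ⟨rfl, h⟩⟩
  have hcl : IsClosed P := hP.compact.isClosed
  -- the half discs
  have hhalf : ∀ κ : ℝ, {x : ℂ | ‖x - y‖ < ε ∧ 0 < κ * cr (b i - a i) (x - y)} ⊆ interior P ∨
      {x : ℂ | ‖x - y‖ < ε ∧ 0 < κ * cr (b i - a i) (x - y)} ⊆ (closure P)ᶜ := by
    intro κ
    have hconv : Convex ℝ {x : ℂ | ‖x - y‖ < ε ∧ 0 < κ * cr (b i - a i) (x - y)} := by
      have e : {x : ℂ | ‖x - y‖ < ε ∧ 0 < κ * cr (b i - a i) (x - y)} =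
          Metric.ball y ε ∩ {x : ℂ | 0 < κ * cr (b i - a i) (x - y)} := by
        ext x
        simp only [mem_ofPred_eq, mem_inter_iff, Metric.mem_ball, dist_eq_norm]
      rw [e]
      refine (convex_ball y ε).inter ?_
      intro u hu v hv' p q hp hq hpq
      simp only [mem_ofPred_eq] at hu hv' ⊢
      have e2 : κ * cr (b i - a i) (p • u + q • v - y) =
          p * (κ * cr (b i - a i) (u - y)) + q * (κ * cr (b i - a i) (v - y)) := by
        have e3 : p • u + q • v - y = (p : ℂ) * (u - y) + (q : ℂ) * (v - y) := by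
          simp only [Complex.real_smul]
          have : (p : ℂ) + (q : ℂ) = 1 := by exact_mod_cast congrArg (fun r : ℝ => (r : ℂ)) hpq
          linear_combination y * this
        rw [e3, E2a_cr_add, E2a_cr_mul, E2a_cr_mul]
        ring
      rw [e2]
      rcases eq_or_lt_of_le hp with hp | hp
      · rw [← hp] at hpq ⊢
        have hq1 : q = 1 := by linarith
        rw [hq1]
        linarith
      · have h1 := mul_pos hp hu
        have h2 := mul_nonneg hq hv'.le
        linarith
    refine hconv.isPreconnected.subset_or_subset isOpen_interior isClosed_closure.isOpen_compl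
      ?_ ?_
    · exact disjoint_compl_right.mono_left (interior_subset.trans subset_closure)
    · intro x hx
      by_cases hxi : x ∈ interior P
      · exact Or.inl hxi
      · right
        intro hxc
        have hxf : x ∈ frontier P := ⟨hxc, hxi⟩
        rw [hfr x hx.1] at hxf
        have := hx.2
        rw [hxf, mul_zero] at this
        exact lt_irrefl _ this
  have hmain : ∀ x : ℂ, ‖x - y‖ < ε → x ∈ interior P → cr (b i - a i) (x - y) ≠ 0 := by
    intro x hx hxi h0
    have hxf := (hfr x hx).mpr h0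
    exact hxf.2 hxi
  have hyf : y ∈ frontier P := by
    rw [hfr y (by rw [sub_self, norm_zero]; exact hε), sub_self]
    simp [cr]
  rcases hhalf 1 with hp | hp <;> rcases hhalf (-1) with hm | hm
  · -- impossible
    exfalso
    apply hyf.2
    rw [mem_interior]
    refine ⟨Metric.ball y ε, ?_, Metric.isOpen_ball, Metric.mem_ball_self hε⟩
    intro x hx
    rw [Metric.mem_ball, dist_eq_norm] at hx
    rcases lt_trichotomy (cr (b i - a i) (x - y)) 0 with h | h | h
    · exact interior_subset (hm ⟨hx, by linarith⟩)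
    · have := (hfr x hx).mpr h
      exact hcl.frontier_subset this
    · exact interior_subset (hp ⟨hx, by linarith⟩)
  · refine ⟨ε, 1, hε, Or.inl rfl, fun x hx => ⟨hfr x hx, hseg x hx, ?_, ?_⟩⟩
    · intro hxi
      rcases lt_trichotomy (cr (b i - a i) (x - y)) 0 with h | h | h
      · exact absurd (subset_closure (interior_subset hxi)) (hm ⟨hx, by linarith⟩)
      · exact absurd h (hmain x hx hxi)
      · linarith
    · intro h
      exact hp ⟨hx, h⟩
  · refine ⟨ε, -1, hε, Or.inr (Or.inl rfl), fun x hx => ⟨hfr x hx, hseg x hx, ?_, ?_⟩⟩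
    · intro hxi
      rcases lt_trichotomy (cr (b i - a i) (x - y)) 0 with h | h | h
      · linarith
      · exact absurd h (hmain x hx hxi)
      · exact absurd (subset_closure (interior_subset hxi)) (hp ⟨hx, by linarith⟩)
    · intro h
      exact hm ⟨hx, h⟩
  · refine ⟨ε, 0, hε, Or.inr (Or.inr rfl), fun x hx => ⟨hfr x hx, hseg x hx, ?_, ?_⟩⟩
    · intro hxi
      exfalso
      rcases lt_trichotomy (cr (b i - a i) (x - y)) 0 with h | h | h
      · exact (hm ⟨hx, by linarith⟩) (subset_closure (interior_subset hxi))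
      · exact absurd h (hmain x hx hxi)
      · exact (hp ⟨hx, by linarith⟩) (subset_closure (interior_subset hxi))
    · intro h
      rw [zero_mul] at h
      exact absurd h (lt_irrefl _)

/-- [E2] the set of the bad boundary points is finite. -/
theorem Vx_finite (hP : IsPolygon P a b) (hd : Nd a b) : (Vx P a b).Finite := by
  have h1 : (range a ∪ range b ∪ ⋃ i : Fin n, ⋃ j : Fin n, ⋃ _ : i ≠ j,
      (segment ℝ (a i) (b i) ∩ segment ℝ (a j) (b j))).Finite := by
    refine ((finite_range a).union (finite_range b)).union ?_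
    refine finite_iUnion fun i => finite_iUnion fun j => finite_iUnion fun hij => hd i j hij
  refine h1.subset ?_
  rintro v ⟨hvf, hv⟩
  rw [hP.frontier_eq, mem_iUnion] at hvf
  obtain ⟨i, hi⟩ := hvf
  by_cases h2 : ∃ j, j ≠ i ∧ v ∈ segment ℝ (a j) (b j)
  · obtain ⟨j, hji, hj⟩ := h2
    right
    rw [mem_iUnion]
    refine ⟨i, ?_⟩
    rw [mem_iUnion]
    refine ⟨j, ?_⟩
    rw [mem_iUnion]
    exact ⟨hji.symm, hi, hj⟩
  · push Not at h2
    left
    rw [← insert_endpoints_openSegment] at hi
    rcases hi with hi | hi | hi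
    · left; exact ⟨i, hi.symm⟩
    · right; exact ⟨i, (mem_singleton_iff.mp hi).symm⟩
    · exact absurd ⟨hi, h2⟩ (hv i)

end BFE
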