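import Pool.Agent.BFE.Base
import Pool.Agent.BFE.E1b
import Pool.Agent.BFE.E2a

/-! # BFE: row E2b -/

set_option autoImplicit false

open MeasureTheory Set Filter Topology

namespace BFE

open BIL

variable {n : ℕ} {P : Set ℂ} {a b : Fin n → ℂ}

theorem E2b_norm_dir (θ : Ang) : ‖dir θ‖ = 1 := by
  unfold dir
  exact Circle.norm_coe _

theorem E2b_cr_mul (r : ℝ) (x y : ℂ) : cr x ((r : ℂ) * y) = r * cr x y := by
  simp only [cr, Complex.mul_re, Complex.mul_im, Complex.ofReal_re, Complex.ofReal_im]; ring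

/-- [E2] after a collision the motion stays in the interior for a short time; the collision is
transversal. -/
theorem refl_in (hP : IsPolygon P a b) {i : Fin n} {z : ℂ × Ang} {τ : ℝ} (hτ : 0 < τ)
    (hf : ∀ s : ℝ, 0 < s → s < τ → (S s z).1 ∈ interior P) (hr : Reg a b i (S τ z).1) :
    (∀ᶠ s : ℝ in 𝓝[>] 0, (S s (rho a b i (S τ z))).1 ∈ interior P) ∧
    (rho a b i (S τ z)).1 = (S τ z).1 ∧ cr (b i - a i) (dir z.2) ≠ 0 := by
  obtain ⟨ε, σ, hε, -, hN⟩ := BFE.reg_nbhd hP hr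
  obtain ⟨-, -, -, -, -, hpos, hcr⟩ := BFE.rho_facts (a := a) (b := b) hP.ne i
  have e1 : (rho a b i (S τ z)).1 = (S τ z).1 :=
    hpos _ (openSegment_subset_segment ℝ _ _ hr.1)
  -- before the collision
  have hneg : σ * cr (b i - a i) (dir z.2) < 0 := by
    obtain ⟨s, hs0, hs1⟩ : ∃ s : ℝ, 0 < s ∧ s < min ε τ := exists_between (lt_min hε hτ)
    have hsε : s < ε := hs1.trans_le (min_le_left _ _)
    have hsτ : s < τ := hs1.trans_le (min_le_right _ _)
    have e2 : (S (τ - s) z).1 - (S τ z).1 = ((-s : ℝ) : ℂ) * dir z.2 := by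
      simp only [S]
      push_cast
      ring
    have h1 : ‖(S (τ - s) z).1 - (S τ z).1‖ < ε := by
      rw [e2, norm_mul, Complex.norm_real, E2b_norm_dir, mul_one, Real.norm_eq_abs, abs_neg,
        abs_of_pos hs0]
      exact hsε
    have h2 := ((hN _ h1).2.2).mp (hf (τ - s) (by linarith) (by linarith))
    rw [e2, E2b_cr_mul] at h2
    nlinarith
  refine ⟨?_, e1, ?_⟩
  · have h3 : ∀ᶠ s : ℝ in 𝓝[>] 0, s < ε := nhdsWithin_le_nhds (Iio_mem_nhds hε)
    have h4 : ∀ᶠ s : ℝ in 𝓝[>] (0 : ℝ), 0 < s := self_mem_nhdsWithin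
    filter_upwards [h3, h4] with s hs1 hs0
    have e3 : (S s (rho a b i (S τ z))).1 - (S τ z).1 =
        (s : ℂ) * dir (rho a b i (S τ z)).2 := by
      have : (S s (rho a b i (S τ z))).1 =
          (rho a b i (S τ z)).1 + (s : ℂ) * dir (rho a b i (S τ z)).2 := rfl
      rw [this, e1]
      ring
    have h1 : ‖(S s (rho a b i (S τ z))).1 - (S τ z).1‖ < ε := by
      rw [e3, norm_mul, Complex.norm_real, E2b_norm_dir, mul_one, Real.norm_eq_abs,
        abs_of_pos hs0]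
      exact hs1
    refine ((hN _ h1).2.2).mpr ?_
    rw [e3, E2b_cr_mul, hcr]
    have e4 : (S τ z).2 = z.2 := rfl
    rw [e4]
    nlinarith
  · intro h0
    rw [h0, mul_zero] at hneg
    exact lt_irrefl _ hneg

/-- [E2] the first hit. -/
theorem first_hit (hP : IsPolygon P a b) {z : ℂ × Ang}
    (hz : ∀ᶠ s : ℝ in 𝓝[>] 0, (S s z).1 ∈ interior P) :
    ∃ τ : ℝ, 0 < τ ∧ (∀ s : ℝ, 0 < s → s < τ → (S s z).1 ∈ interior P) ∧
      (S τ z).1 ∈ frontier P := by
  have hcl : IsClosed P := hP.compact.isClosed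
  have hcont : Continuous fun s : ℝ => (S s z).1 := by
    unfold S
    fun_prop
  obtain ⟨δ, hδ, hδ'⟩ : ∃ δ : ℝ, 0 < δ ∧ ∀ s : ℝ, 0 < s → s < δ → (S s z).1 ∈ interior P := by
    rw [eventually_nhdsWithin_iff, Metric.eventually_nhds_iff] at hz
    obtain ⟨δ, hδ, h⟩ := hz
    refine ⟨δ, hδ, fun s hs0 hs1 => h ?_ hs0⟩
    rw [Real.dist_eq, sub_zero, abs_of_pos hs0]
    exact hs1
  -- the set of bad times
  have hAcl : IsClosed {s : ℝ | δ ≤ s ∧ (S s z).1 ∉ interior P} := by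
    have e : {s : ℝ | δ ≤ s ∧ (S s z).1 ∉ interior P} =
        Ici δ ∩ (fun s : ℝ => (S s z).1) ⁻¹' (interior P)ᶜ := by
      ext s
      simp only [mem_ofPred_eq, mem_inter_iff, mem_Ici, mem_preimage, mem_compl_iff]
    rw [e]
    exact isClosed_Ici.inter (isOpen_interior.isClosed_compl.preimage hcont)
  have hAne : {s : ℝ | δ ≤ s ∧ (S s z).1 ∉ interior P}.Nonempty := by
    obtain ⟨R, hR⟩ := hP.compact.isBounded.exists_norm_le
    refine ⟨max δ (R + ‖z.1‖ + 1), le_max_left _ _, fun hmem => ?_⟩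
    have h1 := hR _ (interior_subset hmem)
    have h2 : R + ‖z.1‖ + 1 ≤ max δ (R + ‖z.1‖ + 1) := le_max_right _ _
    set s : ℝ := max δ (R + ‖z.1‖ + 1) with hs
    have hs0 : 0 < s := hδ.trans_le (le_max_left _ _)
    have h3 : ‖(s : ℂ) * dir z.2‖ ≤ ‖(S s z).1‖ + ‖z.1‖ := by
      have e : (s : ℂ) * dir z.2 = (S s z).1 - z.1 := by
        simp only [S]
        ring
      rw [e]
      exact norm_sub_le _ _
    rw [norm_mul, Complex.norm_real, E2b_norm_dir, mul_one, Real.norm_eq_abs,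
      abs_of_pos hs0] at h3
    linarith
  have hAbd : BddBelow {s : ℝ | δ ≤ s ∧ (S s z).1 ∉ interior P} := ⟨δ, fun s hs => hs.1⟩
  have hmem := hAcl.csInf_mem hAne hAbd
  set τ : ℝ := sInf {s : ℝ | δ ≤ s ∧ (S s z).1 ∉ interior P} with hτ
  have hτ0 : 0 < τ := hδ.trans_le hmem.1
  have hfree : ∀ s : ℝ, 0 < s → s < τ → (S s z).1 ∈ interior P := by
    intro s hs0 hs1
    by_contra hc
    rcases lt_or_ge s δ with h | h
    · exact hc (hδ' s hs0 h)
    · exact absurd (csInf_le hAbd (show s ∈ {s : ℝ | δ ≤ s ∧ (S s z).1 ∉ interior P} from ⟨h, hc⟩))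
        (not_le.mpr hs1)
  refine ⟨τ, hτ0, hfree, ?_, hmem.2⟩
  have h1 : Tendsto (fun s : ℝ => (S s z).1) (𝓝[<] τ) (𝓝 (S τ z).1) :=
    (hcont.tendsto τ).mono_left nhdsWithin_le_nhds
  refine mem_closure_of_tendsto h1 ?_
  have h2 : ∀ᶠ s : ℝ in 𝓝[<] τ, 0 < s := nhdsWithin_le_nhds (Ioi_mem_nhds hτ0)
  have h3 : ∀ᶠ s : ℝ in 𝓝[<] τ, s < τ := self_mem_nhdsWithin
  filter_upwards [h2, h3] with s hs0 hs1
  exact interior_subset (hfree s hs0 hs1)

end BFE
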