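import Pool.Agent.BFE.Base
import Pool.Agent.BFE.E1a
import Pool.Agent.BFE.E1b
import Pool.Agent.BFE.E2b

/-! # BFE row E3: paths -/

set_option autoImplicit false

open MeasureTheory Set Filter Topology

namespace BFE

open BIL

variable {n : ℕ} {P : Set ℂ} {a b : Fin n → ℂ}

theorem e3_reg_frontier (hP : IsPolygon P a b) {i : Fin n} {x : ℂ} (h : Reg a b i x) :
    x ∈ frontier P := by
  rw [hP.frontier_eq]
  exact mem_iUnion.2 ⟨i, openSegment_subset_segment ℝ _ _ h.1⟩

theorem e3_not_int (hP : IsPolygon P a b) {i : Fin n} {x : ℂ} (h : Reg a b i x) :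
    x ∉ interior P := fun h' =>
  disjoint_left.1 disjoint_interior_frontier h' (e3_reg_frontier hP h)

theorem e3_reg_unique {i j : Fin n} {x : ℂ} (h : Reg a b i x) (h' : Reg a b j x) : i = j := by
  by_contra hij
  exact h.2 j (fun hji => hij hji.symm) (openSegment_subset_segment ℝ _ _ h'.1)

theorem e3_SS (s t : ℝ) (z : ℂ × Ang) : S s (S t z) = S (s + t) z := BFE.S_facts.1 s t z

theorem e3_rhoS (hne : ∀ i, a i ≠ b i) (i : Fin n) (t : ℝ) (z : ℂ × Ang) :
    rho a b i (S t z) = S t (rho a b i z) := (BFE.rho_facts hne i).2.1 t z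

/-- the state after a collision, moved on -/
theorem e3_move (hne : ∀ i, a i ≠ b i) (i : Fin n) (τ t : ℝ) (z : ℂ × Ang) :
    S (t - τ) (rho a b i (S τ z)) = rho a b i (S t z) := by
  rw [← e3_rhoS hne, e3_SS, sub_add_cancel]

/-- [E3] uniqueness of the word. -/
theorem pth_unique (hP : IsPolygon P a b) {l l' : List (Fin n)} {z : ℂ × Ang} {t : ℝ}
    (h : Pth P a b l z t) (h' : Pth P a b l' z t) : l = l' := by
  induction l generalizing l' z t with
  | nil =>
    cases l' with
    | nil => rfl
    | cons j m =>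
      obtain ⟨τ, h0, h1, _, h3, _⟩ := h'
      exact absurd (h τ h0 h1) (e3_not_int hP h3)
  | cons i l ih =>
    cases l' with
    | nil =>
      obtain ⟨τ, h0, h1, _, h3, _⟩ := h
      exact absurd (h' τ h0 h1) (e3_not_int hP h3)
    | cons j m =>
      obtain ⟨τ, h0, h1, h2, h3, h4⟩ := h
      obtain ⟨τ', h0', h1', h2', h3', h4'⟩ := h'
      have hτ : τ = τ' := by
        rcases lt_trichotomy τ τ' with hlt | heq | hgt
        · exact absurd (h2' τ h0 hlt) (e3_not_int hP h3)
        · exact heq
        · exact absurd (h2 τ' h0' hgt) (e3_not_int hP h3')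
      subst hτ
      have hij : i = j := e3_reg_unique h3 h3'
      subst hij
      rw [ih h4 h4']

/-- [E3] concatenation. -/
theorem pth_append {l l' : List (Fin n)} {z : ℂ × Ang} {t t' : ℝ} (hne : ∀ i, a i ≠ b i)
    (ht : 0 ≤ t) (ht' : 0 ≤ t') (h : Pth P a b l z t) (h' : Pth P a b l' (G a b l (S t z)) t') :
    Pth P a b (l ++ l') z (t + t') := by
  induction l generalizing z t with
  | nil =>
    have h2 : ∀ s : ℝ, 0 < s → s ≤ t → (S s z).1 ∈ interior P := h
    have h3 : Pth P a b l' (S t z) t' := h'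
    show Pth P a b l' z (t + t')
    cases l' with
    | nil =>
      intro s hs0 hs1
      rcases le_or_gt s t with hst | hst
      · exact h2 s hs0 hst
      · have h4 : (S (s - t) (S t z)).1 ∈ interior P := h3 (s - t) (by linarith) (by linarith)
        rwa [e3_SS, sub_add_cancel] at h4
    | cons j m =>
      obtain ⟨τ, k0, k1, k2, k3, k4⟩ := h3
      refine ⟨τ + t, by linarith, by linarith, ?_, ?_, ?_⟩
      · intro s hs0 hs1
        rcases le_or_gt s t with hst | hst
        · exact h2 s hs0 hst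
        · have h4 : (S (s - t) (S t z)).1 ∈ interior P := k2 (s - t) (by linarith) (by linarith)
          rwa [e3_SS, sub_add_cancel] at h4
      · rwa [e3_SS] at k3
      · rw [e3_SS] at k4
        have e : t + t' - (τ + t) = t' - τ := by ring
        rw [e]
        exact k4
  | cons i l ih =>
    obtain ⟨τ, h0, h1, h2, h3, h4⟩ := h
    have h5 : Pth P a b l' (G a b l (S (t - τ) (rho a b i (S τ z)))) t' := by
      rw [e3_move hne]
      exact h'
    have h6 := ih (z := rho a b i (S τ z)) (t := t - τ) (by linarith) h4 h5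
    refine ⟨τ, h0, by linarith, h2, h3, ?_⟩
    have e : t + t' - τ = t - τ + t' := by ring
    show Pth P a b (l ++ l') (rho a b i (S τ z)) (t + t' - τ)
    rw [e]
    exact h6

/-- [E3] restriction. -/
theorem pth_split {l : List (Fin n)} {z : ℂ × Ang} {s t : ℝ} (hne : ∀ i, a i ≠ b i)
    (hs : 0 ≤ s) (hst : s ≤ t) (h : Pth P a b l z t) :
    ∃ l₁ l₂, l = l₁ ++ l₂ ∧ Pth P a b l₁ z s ∧ Pth P a b l₂ (G a b l₁ (S s z)) (t - s) := by
  induction l generalizing z s t with
  | nil =>
    have h2 : ∀ s : ℝ, 0 < s → s ≤ t → (S s z).1 ∈ interior P := h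
    refine ⟨[], [], rfl, ?_, ?_⟩
    · intro r hr0 hr1
      exact h2 r hr0 (by linarith)
    · intro r hr0 hr1
      show (S r (S s z)).1 ∈ interior P
      rw [e3_SS]
      exact h2 (r + s) (by linarith) (by linarith)
  | cons i l ih =>
    obtain ⟨τ, h0, h1, h2, h3, h4⟩ := h
    rcases lt_or_ge s τ with hsτ | hsτ
    · refine ⟨[], i :: l, rfl, ?_, ?_⟩
      · intro r hr0 hr1
        exact h2 r hr0 (by linarith)
      · have e1 : S (τ - s) (S s z) = S τ z := by rw [e3_SS, sub_add_cancel]
        refine ⟨τ - s, by linarith, by linarith, ?_, ?_, ?_⟩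
        · intro r hr0 hr1
          show (S r (S s z)).1 ∈ interior P
          rw [e3_SS]
          exact h2 (r + s) (by linarith) (by linarith)
        · show Reg a b i (S (τ - s) (S s z)).1
          rw [e1]
          exact h3
        · show Pth P a b l (rho a b i (S (τ - s) (S s z))) (t - s - (τ - s))
          have e2 : t - s - (τ - s) = t - τ := by ring
          rw [e1, e2]
          exact h4
    · obtain ⟨l₁, l₂, k1, k2, k3⟩ := ih (z := rho a b i (S τ z)) (s := s - τ) (t := t - τ)
        (by linarith) (by linarith) h4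
      refine ⟨i :: l₁, l₂, by rw [k1]; rfl, ⟨τ, h0, hsτ, h2, h3, k2⟩, ?_⟩
      show Pth P a b l₂ (G a b l₁ (rho a b i (S s z))) (t - s)
      rw [e3_move hne] at k3
      have e : t - τ - (s - τ) = t - s := by ring
      rw [e] at k3
      exact k3

/-- [E3] along a path the motion enters the interior at once; the positions are in `P`. -/
theorem pth_end (hP : IsPolygon P a b) {l : List (Fin n)} {z : ℂ × Ang} {t : ℝ} (ht : 0 ≤ t)
    (hz : ∀ᶠ s : ℝ in 𝓝[>] 0, (S s z).1 ∈ interior P) (h : Pth P a b l z t) :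
    (∀ᶠ s : ℝ in 𝓝[>] 0, (S s (G a b l (S t z))).1 ∈ interior P) ∧
    (G a b l (S t z)).1 ∈ P := by
  induction l generalizing z t with
  | nil =>
    have h2 : ∀ s : ℝ, 0 < s → s ≤ t → (S s z).1 ∈ interior P := h
    have hcont : ∀ w : ℂ × Ang, Tendsto (fun s : ℝ => (S s w).1) (𝓝[>] 0) (𝓝 w.1) := by
      intro w
      have h3 : Continuous fun s : ℝ => (S s w).1 := by
        show Continuous fun s : ℝ => w.1 + (s : ℂ) * dir w.2
        fun_prop
      have h4 := h3.tendsto 0
      have h5 : (S 0 w).1 = w.1 := by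
        show w.1 + ((0 : ℝ) : ℂ) * dir w.2 = w.1
        simp
      rw [h5] at h4
      exact h4.mono_left nhdsWithin_le_nhds
    show (∀ᶠ s : ℝ in 𝓝[>] 0, (S s (S t z)).1 ∈ interior P) ∧ (S t z).1 ∈ P
    rcases ht.eq_or_lt with h0 | h0
    · subst h0
      rw [BFE.S_facts.2.1 z]
      refine ⟨hz, ?_⟩
      exact hP.compact.isClosed.mem_of_tendsto (hcont z) (hz.mono fun s hs => interior_subset hs)
    · have h3 := h2 t h0 le_rfl
      exact ⟨(hcont (S t z)).eventually (isOpen_interior.mem_nhds h3), interior_subset h3⟩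
  | cons i l ih =>
    obtain ⟨τ, h0, h1, h2, h3, h4⟩ := h
    have h5 := (BFE.refl_in hP h0 h2 h3).1
    have h6 := ih (z := rho a b i (S τ z)) (t := t - τ) (by linarith) h5 h4
    rw [e3_move hP.ne] at h6
    exact h6

end BFE
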