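import Pool.Agent.BFE.Base
import Pool.Agent.BFE.E1a
import Pool.Agent.BFE.E1b
import Pool.Agent.BFE.E2b
import Pool.Agent.BFE.E3

/-! # BFE [E10]: the forward motion is a half orbit -/

set_option autoImplicit false

open MeasureTheory Set Filter Topology

namespace BFE

open BIL

variable {n : ℕ} {P : Set ℂ} {a b : Fin n → ℂ}

theorem e10_dir_norm (θ : Ang) : ‖dir θ‖ = 1 := by
  unfold dir
  exact Circle.norm_coe _

theorem e10_S_sub (s t : ℝ) (z : ℂ × Ang) : ‖(S t z).1 - (S s z).1‖ = |t - s| := by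
  have h : (S t z).1 - (S s z).1 = ((t - s : ℝ) : ℂ) * dir z.2 := by
    simp only [S]; push_cast; ring
  rw [h, norm_mul, e10_dir_norm, mul_one, Complex.norm_real, Real.norm_eq_abs]

/-- The conditions on the time interval `[0, T]`. -/
structure E10C (P : Set ℂ) (a b : Fin n → ℂ) (γ : ℝ → ℂ × Ang) (T : ℝ) : Prop where
  lip : ∀ s t : ℝ, 0 ≤ s → s ≤ t → t ≤ T → ‖(γ t).1 - (γ s).1‖ ≤ t - s
  fin : {τ | τ ∈ Ioc 0 T ∧ (γ τ).1 ∈ frontier P}.Finite
  free : ∀ s t : ℝ, 0 ≤ s → s ≤ t → t ≤ T → (∀ τ ∈ Ioc s t, (γ τ).1 ∉ frontier P) →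
        (γ t).2 = (γ s).2 ∧ (γ t).1 = (γ s).1 + (t - s) * dir (γ s).2
  refl : ∀ τ : ℝ, 0 < τ → τ ≤ T → (γ τ).1 ∈ frontier P → ∃ i, (γ τ).1 ∈ openSegment ℝ (a i) (b i) ∧
        (∀ j, j ≠ i → (γ τ).1 ∉ segment ℝ (a j) (b j)) ∧
        ∃ ε > 0, ∀ s ∈ Ioo (τ - ε) τ, (γ τ).2 = (2 : ℕ) • ang (b i - a i) - (γ s).2

theorem e10_main (hP : IsPolygon P a b) (l : List (Fin n)) : ∀ (z : ℂ × Ang) (T : ℝ)
    (γ : ℝ → ℂ × Ang), 0 ≤ T → Pth P a b l z T →
    (∀ (l' : List (Fin n)) (t : ℝ), 0 ≤ t → t ≤ T → Pth P a b l' z t → γ t = G a b l' (S t z)) →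
    E10C P a b γ T := by
  have hif : ∀ x : ℂ, x ∈ interior P → x ∉ frontier P := fun x h h' => h'.2 h
  induction l with
  | nil =>
    intro z T γ hT h hγ
    have hg : ∀ t : ℝ, 0 ≤ t → t ≤ T → γ t = S t z := fun t h0 h1 =>
      hγ [] t h0 h1 fun s hs hst => h s hs (hst.trans h1)
    have hin : ∀ t : ℝ, 0 < t → t ≤ T → (γ t).1 ∈ interior P := fun t h0 h1 => by
      rw [hg t h0.le h1]; exact h t h0 h1
    refine ⟨fun s t h0 h1 h2 => ?_, ?_, fun s t h0 h1 h2 _ => ?_, fun τ h0 h1 h2 => ?_⟩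
    · rw [hg t (h0.trans h1) h2, hg s h0 (h1.trans h2), e10_S_sub, abs_of_nonneg (by linarith)]
    · have : {τ | τ ∈ Ioc 0 T ∧ (γ τ).1 ∈ frontier P} = ∅ := by
        ext τ
        simp only [mem_setOf_eq, mem_empty_iff_false, iff_false, not_and]
        exact fun h1 h2 => hif _ (hin τ h1.1 h1.2) h2
      rw [this]; exact finite_empty
    · rw [hg t (h0.trans h1) h2, hg s h0 (h1.trans h2)]
      refine ⟨rfl, ?_⟩
      simp only [S]; push_cast; ring
    · exact absurd h2 (hif _ (hin τ h0 h1))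
  | cons i l ih =>
    intro z T γ hT h hγ
    obtain ⟨τ₁, h1, h2, h3, h4, h5⟩ := h
    obtain ⟨r1, r2, r3⟩ := BFE.refl_in hP h1 h3 h4
    set z' := rho a b i (S τ₁ z) with hz'
    have hS := (BFE.S_facts).1
    have hrho := (BFE.rho_facts hP.ne i).2.1
    have ih' := ih z' (T - τ₁) (fun s => γ (τ₁ + s)) (by linarith) h5 (by
      intro l' t ht0 ht1 hp
      have h6 := hγ (i :: l') (τ₁ + t) (by linarith) (by linarith)
        ⟨τ₁, h1, by linarith, h3, h4, by
          have : τ₁ + t - τ₁ = t := by ring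
          rw [this]; exact hp⟩
      change γ (τ₁ + t) = _
      rw [h6]
      change G a b l' (rho a b i (S (τ₁ + t) z)) = G a b l' (S t z')
      rw [hz', ← hrho, hS, add_comm])
    have hlt : ∀ t : ℝ, 0 ≤ t → t < τ₁ → γ t = S t z := fun t h0 h6 =>
      hγ [] t h0 (by linarith) fun s hs hst => h3 s hs (by linarith)
    have heq : γ τ₁ = z' :=
      hγ [i] τ₁ h1.le h2 ⟨τ₁, h1, le_rfl, h3, h4, fun s hs hst => by linarith⟩
    have hle1 : ∀ t : ℝ, 0 ≤ t → t ≤ τ₁ → (γ t).1 = (S t z).1 := fun t h0 h6 => by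
      rcases h6.lt_or_eq with h7 | h7
      · rw [hlt t h0 h7]
      · rw [h7, heq, r2]
    have hfr : (γ τ₁).1 ∈ frontier P := by
      rw [hle1 τ₁ h1.le le_rfl, hP.frontier_eq]
      exact mem_iUnion.mpr ⟨i, openSegment_subset_segment ℝ _ _ h4.1⟩
    have hnf : ∀ t : ℝ, 0 < t → t < τ₁ → (γ t).1 ∉ frontier P := fun t h0 h6 => by
      rw [hlt t h0.le h6]; exact hif _ (h3 t h0 h6)
    have hsh : ∀ t : ℝ, γ (τ₁ + (t - τ₁)) = γ t := fun t => by
      congr 1; ring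
    have hlip1 : ∀ s t : ℝ, 0 ≤ s → s ≤ t → t ≤ τ₁ → ‖(γ t).1 - (γ s).1‖ ≤ t - s := by
      intro s t h0 h6 h7
      rw [hle1 t (h0.trans h6) h7, hle1 s h0 (h6.trans h7), e10_S_sub,
        abs_of_nonneg (by linarith)]
    have hlip2 : ∀ s t : ℝ, τ₁ ≤ s → s ≤ t → t ≤ T → ‖(γ t).1 - (γ s).1‖ ≤ t - s := by
      intro s t h0 h6 h7
      have := ih'.lip (s - τ₁) (t - τ₁) (by linarith) (by linarith) (by linarith)
      simp only [hsh] at this
      linarith
    refine ⟨fun s t h0 h6 h7 => ?_, ?_, fun s t h0 h6 h7 h8 => ?_, fun τ h0 h6 h7 => ?_⟩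
    · rcases le_total t τ₁ with h8 | h8
      · exact hlip1 s t h0 h6 h8
      · rcases le_total τ₁ s with h9 | h9
        · exact hlip2 s t h9 h6 h7
        · have e1 := hlip1 s τ₁ h0 h9 le_rfl
          have e2 := hlip2 τ₁ t le_rfl h8 h7
          have e3 : (γ t).1 - (γ s).1 = ((γ t).1 - (γ τ₁).1) + ((γ τ₁).1 - (γ s).1) := by ring
          rw [e3]
          refine (norm_add_le _ _).trans ?_
          linarith
    · refine (((ih'.fin.image fun s => τ₁ + s).insert τ₁)).subset ?_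
      rintro τ ⟨⟨h6, h7⟩, h8⟩
      rcases lt_trichotomy τ τ₁ with h9 | h9 | h9
      · exact absurd h8 (hnf τ h6 h9)
      · exact mem_insert_iff.mpr (Or.inl h9)
      · refine mem_insert_iff.mpr (Or.inr ⟨τ - τ₁, ⟨⟨by linarith, by linarith⟩, ?_⟩, by ring⟩)
        change (γ (τ₁ + (τ - τ₁))).1 ∈ _
        rw [hsh]; exact h8
    · rcases lt_or_ge t τ₁ with h9 | h9
      · rw [hlt t (h0.trans h6) h9, hlt s h0 (by linarith)]
        refine ⟨rfl, ?_⟩
        simp only [S]; push_cast; ring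
      · rcases lt_or_ge s τ₁ with h10 | h10
        · exact absurd hfr (h8 τ₁ ⟨h10, h9⟩)
        · have := ih'.free (s - τ₁) (t - τ₁) (by linarith) (by linarith) (by linarith) (by
            intro τ hτ
            exact h8 (τ₁ + τ) ⟨by linarith [hτ.1], by linarith [hτ.2]⟩)
          simp only [hsh] at this
          refine ⟨this.1, ?_⟩
          rw [this.2]; push_cast; ring
    · rcases lt_trichotomy τ τ₁ with h9 | h9 | h9
      · exact absurd h7 (hnf τ h0 h9)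
      · refine ⟨i, ?_, ?_, τ₁, h1, ?_⟩
        · rw [h9, hle1 τ₁ h1.le le_rfl]; exact h4.1
        · rw [h9, hle1 τ₁ h1.le le_rfl]; exact h4.2
        · intro s hs
          have hs0 : 0 < s := by have := hs.1; linarith
          have hs1 : s < τ₁ := by have := hs.2; linarith
          rw [h9, heq, hlt s hs0.le hs1]
          rfl
      · obtain ⟨j, j1, j2, ε, hε, j3⟩ := ih'.refl (τ - τ₁) (by linarith) (by linarith) (by
          change (γ (τ₁ + (τ - τ₁))).1 ∈ _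
          rw [hsh]; exact h7)
        simp only [hsh] at j1 j2 j3
        refine ⟨j, j1, j2, min ε (τ - τ₁), lt_min hε (by linarith), ?_⟩
        intro s hs
        have e1 : τ - ε < s := by
          have := hs.1; have := min_le_left ε (τ - τ₁); linarith
        have e2 : τ₁ < s := by
          have := hs.1; have := min_le_right ε (τ - τ₁); linarith
        have := j3 (s - τ₁) ⟨by linarith, by linarith [hs.2]⟩
        rw [hsh] at this
        exact this

theorem half_orbit (hP : IsPolygon P a b) {z : ℂ × Ang} (hz : z ∈ Om P a b) :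
    ∃ γ : ℝ → ℂ × Ang, γ 0 = z ∧ (∀ t : ℝ, 0 ≤ t → (γ t).1 ∈ P) ∧
      ContinuousOn (fun t => (γ t).1) (Ici 0) ∧
      (∀ s t : ℝ, 0 ≤ s → {τ | τ ∈ Icc s t ∧ (γ τ).1 ∈ frontier P}.Finite) ∧
      (∀ s t : ℝ, 0 ≤ s → s ≤ t → (∀ τ ∈ Ioc s t, (γ τ).1 ∉ frontier P) →
        (γ t).2 = (γ s).2 ∧ (γ t).1 = (γ s).1 + (t - s) * dir (γ s).2) ∧
      (∀ τ : ℝ, 0 < τ → (γ τ).1 ∈ frontier P → ∃ i, (γ τ).1 ∈ openSegment ℝ (a i) (b i) ∧
        (∀ j, j ≠ i → (γ τ).1 ∉ segment ℝ (a j) (b j)) ∧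
        ∃ ε > 0, ∀ s ∈ Ioo (τ - ε) τ, (γ τ).2 = (2 : ℕ) • ang (b i - a i) - (γ s).2) ∧
      ∀ (l : List (Fin n)) (t : ℝ), 0 ≤ t → Pth P a b l z t → γ t = G a b l (S t z) := by
  classical
  have hex : ∀ t : ℝ, 0 ≤ t → ∃ l, Pth P a b l z t := by
    intro t ht
    obtain ⟨N, hN⟩ := exists_nat_ge t
    obtain ⟨T, hT, l, hl⟩ := hz N
    obtain ⟨l₁, l₂, -, h1, -⟩ := BFE.pth_split hP.ne ht (hN.trans hT) hl.2.2.1
    exact ⟨l₁, h1⟩
  obtain ⟨t0, _, l0, hl0⟩ := hz 0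
  have hzi : z.1 ∈ interior P := hl0.2.1
  have hent : ∀ᶠ s : ℝ in 𝓝[>] 0, (S s z).1 ∈ interior P := by
    have hc : Continuous fun s : ℝ => (S s z).1 := by
      simp only [S]; fun_prop
    have h0 : (S 0 z).1 ∈ interior P := by
      rw [(BFE.S_facts).2.1]; exact hzi
    exact (hc.continuousAt.eventually (isOpen_interior.mem_nhds h0)).filter_mono
      nhdsWithin_le_nhds
  choose! w hw using hex
  set γ : ℝ → ℂ × Ang := fun t => if 0 ≤ t then G a b (w t) (S t z) else z with hγdef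
  have hγ : ∀ (l : List (Fin n)) (t : ℝ), 0 ≤ t → Pth P a b l z t → γ t = G a b l (S t z) := by
    intro l t ht hl
    rw [BFE.pth_unique hP hl (hw t ht)]
    simp only [hγdef, if_pos ht]
  have hC : ∀ T : ℝ, 0 ≤ T → E10C P a b γ T := fun T hT =>
    e10_main hP (w T) z T γ hT (hw T hT) fun l' t h0 _ h1 => hγ l' t h0 h1
  refine ⟨γ, ?_, ?_, ?_, ?_, ?_, ?_, hγ⟩
  · rw [hγ [] 0 le_rfl fun s h0 h1 => by linarith]
    exact (BFE.S_facts).2.1 z
  · intro t ht
    rw [hγ _ t ht (hw t ht)]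
    exact (BFE.pth_end hP ht hent (hw t ht)).2
  · have hl : ∀ s t : ℝ, 0 ≤ s → 0 ≤ t → dist (γ s).1 (γ t).1 ≤ dist s t := by
      intro s t hs ht
      rcases le_total s t with h | h
      · have := (hC t ht).lip s t hs h le_rfl
        rw [dist_comm, dist_eq_norm, dist_comm s t, Real.dist_eq, abs_of_nonneg (by linarith)]
        exact this
      · have := (hC s hs).lip t s ht h le_rfl
        rw [dist_eq_norm, Real.dist_eq, abs_of_nonneg (by linarith)]
        exact this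
    have : LipschitzOnWith 1 (fun t => (γ t).1) (Ici 0) :=
      LipschitzOnWith.of_dist_le_mul fun s hs t ht => by
        rw [NNReal.coe_one, one_mul]; exact hl s t hs ht
    exact this.continuousOn
  · intro s t hs
    have hT : 0 ≤ max t 0 := le_max_right _ _
    refine (((hC _ hT).fin).insert 0).subset ?_
    rintro τ ⟨⟨h1, h2⟩, h3⟩
    rcases (hs.trans h1).eq_or_lt with h4 | h4
    · exact mem_insert_iff.mpr (Or.inl h4.symm)
    · exact mem_insert_iff.mpr (Or.inr ⟨⟨h4, h2.trans (le_max_left _ _)⟩, h3⟩)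
  · intro s t hs hst h
    exact (hC t (hs.trans hst)).free s t hs hst le_rfl h
  · intro τ hτ h
    exact (hC τ hτ.le).refl τ hτ le_rfl h

end BFE
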