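import Pool.Agent.BFE.Base
import Pool.Agent.BFE.E1a
import Pool.Agent.BFE.E1b
import Pool.Agent.BFE.E3

set_option autoImplicit false

open MeasureTheory Set Filter Topology

namespace BFE

open BIL

variable {n : ℕ} {P : Set ℂ} {a b : Fin n → ℂ}

/-- A path of positive length stays in the interior for a short time. -/
theorem pth_start_aux {l : List (Fin n)} {w : ℂ × Ang} {T : ℝ} (hT : 0 < T)
    (h : Pth P a b l w T) : ∃ s : ℝ, 0 < s ∧ s < T ∧
      (∀ u : ℝ, 0 < u → u ≤ s → (S u w).1 ∈ interior P) ∧ Pth P a b l (S s w) (T - s) := by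
  have hSS : ∀ (s t : ℝ) (z : ℂ × Ang), S s (S t z) = S (s + t) z := BFE.S_facts.1
  cases l with
  | nil =>
    have h' : ∀ s : ℝ, 0 < s → s ≤ T → (S s w).1 ∈ interior P := h
    refine ⟨T / 2, by linarith, by linarith, fun u hu hu' => h' u hu (by linarith), ?_⟩
    intro s hs hs'
    rw [hSS]
    exact h' _ (by linarith) (by linarith)
  | cons j l' =>
    obtain ⟨τ, hτ, hτT, hint, hreg, hp⟩ := h
    refine ⟨τ / 2, by linarith, by linarith, fun u hu hu' => hint u hu (by linarith), ?_⟩
    refine ⟨τ - τ / 2, by linarith, by linarith, ?_, ?_, ?_⟩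
    · intro s hs hs'
      rw [hSS]
      exact hint _ (by linarith) (by linarith)
    · rw [hSS]
      have e : τ - τ / 2 + τ / 2 = τ := by ring
      rw [e]
      exact hreg
    · rw [hSS]
      have e : τ - τ / 2 + τ / 2 = τ := by ring
      have e2 : T - τ / 2 - (τ - τ / 2) = T - τ := by ring
      rw [e, e2]
      exact hp

/-- A regular boundary point is not in the interior. -/
theorem reg_not_interior (hP : IsPolygon P a b) {i : Fin n} {y : ℂ} (hy : Reg a b i y) :
    y ∉ interior P := by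
  intro hi
  have h1 : y ∈ frontier P := by
    rw [hP.frontier_eq]
    exact Set.mem_iUnion.2 ⟨i, openSegment_subset_segment ℝ _ _ hy.1⟩
  exact h1.2 hi

/-- The end time of a path that ends in the interior is later than the first collision. -/
theorem tau_lt_aux (hP : IsPolygon P a b) {i : Fin n} {l : List (Fin n)} {z : ℂ × Ang} {t τ : ℝ}
    (hτt : τ ≤ t) (hr : Reg a b i (S τ z).1)
    (hp : Pth P a b l (rho a b i (S τ z)) (t - τ))
    (he : (G a b (i :: l) (S t z)).1 ∈ interior P) : τ < t := by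
  rcases hτt.lt_or_eq with h | h
  · exact h
  · exfalso
    subst h
    rw [sub_self] at hp
    cases l with
    | nil =>
      have h1 : (rho a b i (S τ z)).1 = (S τ z).1 :=
        (BFE.rho_facts (fun i => hP.ne i) i).2.2.2.2.2.1 _
          (openSegment_subset_segment ℝ _ _ hr.1)
      have h2 : (G a b [i] (S τ z)).1 = (S τ z).1 := h1
      rw [h2] at he
      exact reg_not_interior hP hr he
    | cons j l' =>
      obtain ⟨τ', h1, h2, _⟩ := hp
      linarith

/-- Reversal of the path. -/
theorem pth_rev_aux (hP : IsPolygon P a b) (l : List (Fin n)) : ∀ (z : ℂ × Ang) (t : ℝ),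
    z ∈ W P a b l t → Pth P a b l.reverse (rv (G a b l (S t z))) t := by
  have hne : ∀ i, a i ≠ b i := fun i => hP.ne i
  have hSS : ∀ (s t : ℝ) (z : ℂ × Ang), S s (S t z) = S (s + t) z := BFE.S_facts.1
  have hS0 : ∀ z : ℂ × Ang, S 0 z = z := BFE.S_facts.2.1
  have hrr : ∀ z : ℂ × Ang, rv (rv z) = z := BFE.rv_facts.1
  have hrS : ∀ (t : ℝ) (z : ℂ × Ang), rv (S t z) = S (-t) (rv z) := BFE.rv_facts.2.1
  have hSr : ∀ (t : ℝ) (z : ℂ × Ang), S t (rv z) = rv (S (-t) z) := by
    intro t z
    rw [hrS, neg_neg]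
  have hGr : ∀ l (z : ℂ × Ang), G a b l.reverse (G a b l z) = z := (BFE.G_facts hne).2.1
  have hGS : ∀ l (t : ℝ) (z : ℂ × Ang), G a b l (S t z) = S t (G a b l z) :=
    (BFE.G_facts hne).2.2.1
  have hGv : ∀ l (z : ℂ × Ang), G a b l (rv z) = rv (G a b l z) := (BFE.G_facts hne).2.2.2.1
  induction l with
  | nil =>
    intro z t hz
    obtain ⟨ht, hzi, hp, he⟩ := hz
    have hp' : ∀ s : ℝ, 0 < s → s ≤ t → (S s z).1 ∈ interior P := hp
    intro s hs hst
    change (S s (rv (S t z))).1 ∈ interior P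
    rw [hSr, hSS]
    change (S (-s + t) z).1 ∈ interior P
    rcases hst.lt_or_eq with h | h
    · exact hp' _ (by linarith) (by linarith)
    · subst h
      rw [neg_add_cancel, hS0]
      exact hzi
  | cons i l ih =>
    intro z t hz
    obtain ⟨ht, hzi, hp, he⟩ := hz
    obtain ⟨τ, hτ, hτt, hint, hreg, hp1⟩ := hp
    have hlt : τ < t := tau_lt_aux hP hτt hreg hp1 he
    obtain ⟨s, hs, hsT, hsi, hp2⟩ := pth_start_aux (by linarith : 0 < t - τ) hp1
    set w := rho a b i (S τ z) with hw
    have hw1 : w.1 = (S τ z).1 := (BFE.rho_facts hne i).2.2.2.2.2.1 _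
      (openSegment_subset_segment ℝ _ _ hreg.1)
    have hrhoS : ∀ (t : ℝ) (z : ℂ × Ang), rho a b i (S t z) = S t (rho a b i z) :=
      (BFE.rho_facts hne i).2.1
    have hrho2 : ∀ z : ℂ × Ang, rho a b i (rho a b i z) = z := (BFE.rho_facts hne i).1
    have hrhov : ∀ z : ℂ × Ang, rho a b i (rv z) = rv (rho a b i z) :=
      (BFE.rho_facts hne i).2.2.1
    -- the state at the time t
    have hend : G a b l (S (t - τ - s) (S s w)) = G a b (i :: l) (S t z) := by
      change G a b l (S (t - τ - s) (S s w)) = G a b l (rho a b i (S t z))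
      rw [hSS, hw, ← hrhoS, hSS]
      congr 3
      ring
    have hz1 : S s w ∈ W P a b l (t - τ - s) := by
      refine ⟨by linarith, hsi s hs le_rfl, hp2, ?_⟩
      rw [hend]
      exact he
    have h1 := ih (S s w) (t - τ - s) hz1
    rw [hend] at h1
    have hst2 : G a b l.reverse (S (t - τ - s) (rv (G a b (i :: l) (S t z)))) = rv (S s w) := by
      rw [← hend, hSr, hGS, ← hGS, ← hGS, hSS, neg_add_cancel, hS0, hGv, hGr]
    have h2 : Pth P a b [i] (rv (S s w)) (s + τ) := by
      refine ⟨s, hs, by linarith, ?_, ?_, ?_⟩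
      · intro u hu hus
        rw [hSr, hSS]
        exact hsi (-u + s) (by linarith) (by linarith)
      · rw [hSr, hSS, neg_add_cancel, hS0]
        change Reg a b i w.1
        rw [hw1]
        exact hreg
      · rw [hSr, hSS, neg_add_cancel, hS0, hrhov, hw, hrho2]
        intro u hu hu'
        rw [hSr, hSS]
        change (S (-u + τ) z).1 ∈ interior P
        have hu2 : u ≤ τ := by linarith
        rcases hu2.lt_or_eq with h | h
        · exact hint _ (by linarith) (by linarith)
        · subst h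
          rw [neg_add_cancel, hS0]
          exact hzi
    have h3 := BFE.pth_append (t := t - τ - s) (t' := s + τ) hne (by linarith) (by linarith) h1
      (by rw [hst2]; exact h2)
    have e : t - τ - s + (s + τ) = t := by ring
    rw [e] at h3
    rw [List.reverse_cons]
    exact h3

/-- [E4] reversal. -/
theorem W_rev (hP : IsPolygon P a b) {l : List (Fin n)} {z : ℂ × Ang} {t : ℝ}
    (h : z ∈ W P a b l t) : rv (G a b l (S t z)) ∈ W P a b l.reverse t := by
  have hne : ∀ i, a i ≠ b i := fun i => hP.ne i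
  have hSS : ∀ (s t : ℝ) (z : ℂ × Ang), S s (S t z) = S (s + t) z := BFE.S_facts.1
  have hS0 : ∀ z : ℂ × Ang, S 0 z = z := BFE.S_facts.2.1
  have hrS : ∀ (t : ℝ) (z : ℂ × Ang), rv (S t z) = S (-t) (rv z) := BFE.rv_facts.2.1
  have hSr : ∀ (t : ℝ) (z : ℂ × Ang), S t (rv z) = rv (S (-t) z) := by
    intro t z
    rw [hrS, neg_neg]
  refine ⟨h.1, h.2.2.2, pth_rev_aux hP l z t h, ?_⟩
  rw [hSr, ← (BFE.G_facts hne).2.2.1, hSS, neg_add_cancel, hS0, (BFE.G_facts hne).2.2.2.1,
    (BFE.G_facts hne).2.1]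
  exact h.2.1

end BFE
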