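import Pool.Agent.BFE.Base
import Pool.Agent.BFE.E10
import Pool.Agent.BFE.E1a
import Pool.Agent.BFE.E1b
import Pool.Agent.BFE.E3
import Pool.Agent.BFE.E4

/-! # BFE row E11: two-sided orbits -/

set_option autoImplicit false

open MeasureTheory Set Filter Topology

namespace BFE

open BIL

variable {n : ℕ} {P : Set ℂ} {a b : Fin n → ℂ}

private def e11Half (P : Set ℂ) (a b : Fin n → ℂ) (z : ℂ × Ang) (γ : ℝ → ℂ × Ang) : Prop :=
  γ 0 = z ∧ (∀ t : ℝ, 0 ≤ t → (γ t).1 ∈ P) ∧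
      ContinuousOn (fun t => (γ t).1) (Ici 0) ∧
      (∀ s t : ℝ, 0 ≤ s → {τ | τ ∈ Icc s t ∧ (γ τ).1 ∈ frontier P}.Finite) ∧
      (∀ s t : ℝ, 0 ≤ s → s ≤ t → (∀ τ ∈ Ioc s t, (γ τ).1 ∉ frontier P) →
        (γ t).2 = (γ s).2 ∧ (γ t).1 = (γ s).1 + (t - s) * dir (γ s).2) ∧
      (∀ τ : ℝ, 0 < τ → (γ τ).1 ∈ frontier P → ∃ i, (γ τ).1 ∈ openSegment ℝ (a i) (b i) ∧
        (∀ j, j ≠ i → (γ τ).1 ∉ segment ℝ (a j) (b j)) ∧
        ∃ ε > 0, ∀ s ∈ Ioo (τ - ε) τ, (γ τ).2 = (2 : ℕ) • ang (b i - a i) - (γ s).2) ∧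
      ∀ (l : List (Fin n)) (t : ℝ), 0 ≤ t → Pth P a b l z t → γ t = G a b l (S t z)

private theorem e11_R (hne : ∀ i, a i ≠ b i) (l : List (Fin n)) (r : ℝ) (y : ℂ × Ang) :
    G a b l.reverse (S r (rv (G a b l (S r y)))) = rv y := by
  obtain ⟨G1, G2, G3, G4, -⟩ := BFE.G_facts hne
  obtain ⟨S1, S2, -⟩ := BFE.S_facts
  obtain ⟨R1, R2, -⟩ := BFE.rv_facts
  have h : ∀ w : ℂ × Ang, S r (rv w) = rv (S (-r) w) := fun w => by rw [R2, neg_neg]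
  rw [h, G3 l r y, S1, neg_add_cancel, S2, G4, G2]

private theorem e11_ex (hP : IsPolygon P a b) {w : ℂ × Ang} (hw : w ∈ Om P a b) {u : ℝ}
    (hu : 0 ≤ u) : ∃ k, Pth P a b k w u := by
  obtain ⟨N, hN⟩ := exists_nat_ge u
  obtain ⟨t, ht, l, hl⟩ := hw N
  obtain ⟨l1, l2, -, h1, -⟩ := BFE.pth_split hP.ne hu (hN.trans ht) hl.2.2.1
  exact ⟨l1, h1⟩

private theorem e11_A (hP : IsPolygon P a b) {v w : ℂ × Ang} {m : List (Fin n)} {r : ℝ}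
    (hv : v ∈ W P a b m r) (he : G a b m (S r v) = w) {k : List (Fin n)} {u : ℝ} (hu : 0 ≤ u)
    (hk : Pth P a b k w u) :
    Pth P a b (m ++ k) v (r + u) ∧ G a b (m ++ k) (S (r + u) v) = G a b k (S u w) := by
  obtain ⟨G1, G2, G3, G4, -⟩ := BFE.G_facts hP.ne
  obtain ⟨S1, S2, -⟩ := BFE.S_facts
  constructor
  · exact BFE.pth_append hP.ne hv.1 hu hv.2.2.1 (by rw [he]; exact hk)
  · rw [G1, add_comm r u, ← S1, G3, he]

private theorem e11_Om (hP : IsPolygon P a b) {v w : ℂ × Ang} {m : List (Fin n)} {r : ℝ}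
    (hv : v ∈ W P a b m r) (he : G a b m (S r v) = w) (hw : w ∈ Om P a b) : v ∈ Om P a b := by
  intro N
  obtain ⟨t, ht, l, hl⟩ := hw N
  obtain ⟨h1, h2⟩ := e11_A hP hv he hl.1 hl.2.2.1
  have h0 := hv.1
  have h0' := hl.1
  exact ⟨r + t, by linarith, m ++ l, by linarith, hv.2.1, h1, by rw [h2]; exact hl.2.2.2⟩

/-- [E11] the orbit of a point with an infinite forward and an infinite backward motion. -/
theorem full_orbit (hP : IsPolygon P a b) {z : ℂ × Ang} (hz : z ∈ Om P a b) (hz' : rv z ∈ Om P a b) :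
    ∃ γ : ℝ → ℂ × Ang, IsOrbit P a b γ ∧ γ 0 = z ∧
      (∀ (l : List (Fin n)) (t : ℝ), z ∈ W P a b l t → γ t = G a b l (S t z)) ∧
      ∀ (l : List (Fin n)) (t : ℝ), rv z ∈ W P a b l t → γ (-t) = rv (G a b l (S t (rv z))) := by
  obtain ⟨G1, G2, G3, G4, -⟩ := BFE.G_facts hP.ne
  obtain ⟨S1, S2, -⟩ := BFE.S_facts
  obtain ⟨R1, R2, -⟩ := BFE.rv_facts
  have H : ∀ w : ℂ × Ang, ∃ γ : ℝ → ℂ × Ang, w ∈ Om P a b → e11Half P a b w γ := by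
    intro w
    by_cases hw : w ∈ Om P a b
    · obtain ⟨γ, h⟩ := BFE.half_orbit hP hw
      exact ⟨γ, fun _ => h⟩
    · exact ⟨fun _ => w, fun h => absurd h hw⟩
  choose Γ hΓ using H
  -- the starting points in the past
  have K : ∀ (l : List (Fin n)) (t : ℝ), rv z ∈ W P a b l t →
      rv (G a b l (S t (rv z))) ∈ W P a b l.reverse t ∧
      G a b l.reverse (S t (rv (G a b l (S t (rv z))))) = z ∧
      rv (G a b l (S t (rv z))) ∈ Om P a b := by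
    intro l t h
    have h1 := BFE.W_rev hP h
    have h2 : G a b l.reverse (S t (rv (G a b l (S t (rv z))))) = z := by
      rw [e11_R hP.ne, R1]
    exact ⟨h1, h2, e11_Om hP h1 h2 hz⟩
  -- consistency
  have C0 : ∀ (l l' : List (Fin n)) (t t' : ℝ), rv z ∈ W P a b l t → rv z ∈ W P a b l' t' →
      t ≤ t' → ∀ u : ℝ, 0 ≤ u → Γ (rv (G a b l' (S t' (rv z)))) (t' - t + u) =
        Γ (rv (G a b l (S t (rv z)))) u := by
    intro l l' t t' h h' htt u hu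
    obtain ⟨l1, l2, hl, h1, h2⟩ := BFE.pth_split hP.ne h.1 htt h'.2.2.1
    have h3 := BFE.pth_unique hP h1 h.2.2.1
    subst h3
    have hcomp : G a b l2 (S (t' - t) (G a b l1 (S t (rv z)))) = G a b l' (S t' (rv z)) := by
      rw [hl, G1, ← G3 l1, S1, sub_add_cancel]
    have hW : G a b l1 (S t (rv z)) ∈ W P a b l2 (t' - t) :=
      ⟨by linarith, h.2.2.2, h2, by rw [hcomp]; exact h'.2.2.2⟩
    have h4 := BFE.W_rev hP hW
    have h5 := e11_R hP.ne l2 (t' - t) (G a b l1 (S t (rv z)))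
    rw [hcomp] at h4 h5
    have hO := (K l1 t h).2.2
    have hO' := (K l' t' h').2.2
    obtain ⟨k, hk⟩ := e11_ex hP hO hu
    obtain ⟨h6, h7⟩ := e11_A hP h4 h5 hu hk
    rw [(hΓ _ hO').2.2.2.2.2.2 _ _ (by linarith) h6, (hΓ _ hO).2.2.2.2.2.2 _ _ hu hk, h7]
  choose T hT L hL using hz'
  -- the orbit
  let Z : ℕ → ℂ × Ang := fun N => rv (G a b (L N) (S (T N) (rv z)))
  let γ : ℝ → ℂ × Ang := fun τ => Γ (Z (⌈|τ|⌉₊ + 1)) (T (⌈|τ|⌉₊ + 1) + τ)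
  have hTc : ∀ τ : ℝ, |τ| + 1 ≤ T (⌈|τ|⌉₊ + 1) := by
    intro τ
    have h1 := hT (⌈|τ|⌉₊ + 1)
    have h2 := Nat.le_ceil |τ|
    push_cast at h1
    linarith
  have C : ∀ (l : List (Fin n)) (t : ℝ), rv z ∈ W P a b l t → ∀ τ : ℝ, 0 ≤ t + τ →
      γ τ = Γ (rv (G a b l (S t (rv z)))) (t + τ) := by
    intro l t h τ hτ
    have h0 : 0 ≤ T (⌈|τ|⌉₊ + 1) + τ := by
      have := hTc τ
      have := neg_abs_le τ
      linarith
    rcases le_total t (T (⌈|τ|⌉₊ + 1)) with h1 | h1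
    · have := C0 _ _ _ _ h (hL (⌈|τ|⌉₊ + 1)) h1 (t + τ) hτ
      rw [← this]
      change Γ (Z (⌈|τ|⌉₊ + 1)) _ = Γ (Z (⌈|τ|⌉₊ + 1)) _
      congr 1
      ring
    · have := C0 _ _ _ _ (hL (⌈|τ|⌉₊ + 1)) h h1 (T (⌈|τ|⌉₊ + 1) + τ) h0
      change Γ (Z (⌈|τ|⌉₊ + 1)) _ = _
      change _ = Γ (Z (⌈|τ|⌉₊ + 1)) _ at this
      rw [← this]
      congr 1
      ring
  have CN : ∀ (N : ℕ) (τ : ℝ), 0 ≤ T N + τ → γ τ = Γ (Z N) (T N + τ) := fun N τ h =>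
    C _ _ (hL N) τ h
  have hZ : ∀ N, e11Half P a b (Z N) (Γ (Z N)) := fun N => hΓ _ (K _ _ (hL N)).2.2
  refine ⟨γ, ⟨?_, ?_, ?_, ?_, ?_⟩, ?_, ?_, ?_⟩
  · intro τ
    have h0 : 0 ≤ T (⌈|τ|⌉₊ + 1) + τ := by
      have := hTc τ
      have := neg_abs_le τ
      linarith
    exact (hZ _).2.1 _ h0
  · rw [continuous_iff_continuousAt]
    intro τ
    have h0 : 0 < T (⌈|τ|⌉₊ + 1) + τ := by
      have := hTc τ
      have := neg_abs_le τ
      linarith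
    have h1 : ContinuousAt (fun t => (Γ (Z (⌈|τ|⌉₊ + 1)) t).1) (T (⌈|τ|⌉₊ + 1) + τ) :=
      (hZ (⌈|τ|⌉₊ + 1)).2.2.1.continuousAt (Ici_mem_nhds h0)
    have h2 : ContinuousAt (fun s => (Γ (Z (⌈|τ|⌉₊ + 1)) (T (⌈|τ|⌉₊ + 1) + s)).1) τ :=
      ContinuousAt.comp (f := fun s : ℝ => T (⌈|τ|⌉₊ + 1) + s) h1 (by fun_prop)
    refine h2.congr ?_
    have h3 : ∀ᶠ s : ℝ in 𝓝 τ, 0 < T (⌈|τ|⌉₊ + 1) + s :=
      (isOpen_lt continuous_const (by fun_prop)).mem_nhds h0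
    filter_upwards [h3] with s hs
    rw [CN _ s hs.le]
  · intro s t
    obtain ⟨N, hN⟩ := exists_nat_ge |s|
    have h0 : 0 ≤ T N + s := by
      have := hT N
      have := neg_abs_le s
      linarith
    have h1 := (hZ N).2.2.2.1 (T N + s) (T N + t) h0
    refine (h1.preimage (f := fun τ : ℝ => T N + τ) fun x _ y _ h => by simpa using h).subset ?_
    rintro τ ⟨⟨h2, h3⟩, h4⟩
    refine ⟨⟨by simpa using h2, by simpa using h3⟩, ?_⟩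
    rw [CN N τ (by linarith)] at h4
    exact h4
  · intro s t hst hf
    obtain ⟨N, hN⟩ := exists_nat_ge |s|
    have h0 : 0 ≤ T N + s := by
      have := hT N
      have := neg_abs_le s
      linarith
    have h1 := (hZ N).2.2.2.2.1 (T N + s) (T N + t) h0 (by linarith) (by
      rintro τ ⟨h2, h3⟩
      have h4 := hf (τ - T N) ⟨by linarith, by linarith⟩
      rw [CN N _ (by linarith), add_sub_cancel] at h4
      exact h4)
    rw [CN N s h0, CN N t (by linarith)]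
    refine ⟨h1.1, ?_⟩
    rw [h1.2]
    push_cast
    ring
  · intro τ hτ
    have h0 : 0 < T (⌈|τ|⌉₊ + 1) + τ := by
      have := hTc τ
      have := neg_abs_le τ
      linarith
    rw [CN (⌈|τ|⌉₊ + 1) τ h0.le] at hτ
    obtain ⟨i, h1, h2, ε, hε, h3⟩ := (hZ (⌈|τ|⌉₊ + 1)).2.2.2.2.2.1 _ h0 hτ
    refine ⟨i, h1, h2, min ε (T (⌈|τ|⌉₊ + 1) + τ), lt_min hε h0, ?_⟩
    rintro s ⟨hs1, hs2⟩
    have hm1 := min_le_left ε (T (⌈|τ|⌉₊ + 1) + τ)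
    have hm2 := min_le_right ε (T (⌈|τ|⌉₊ + 1) + τ)
    rw [CN (⌈|τ|⌉₊ + 1) τ h0.le, CN (⌈|τ|⌉₊ + 1) s (by linarith)]
    exact h3 (T (⌈|τ|⌉₊ + 1) + s) ⟨by linarith, by linarith⟩
  · have h0 : 0 ≤ T 0 + 0 := by
      rw [add_zero]
      exact (hL 0).1
    rw [CN 0 0 h0, add_zero]
    obtain ⟨h1, h2, -⟩ := K _ _ (hL 0)
    rw [(hZ 0).2.2.2.2.2.2 _ _ h1.1 h1.2.2.1]
    exact h2
  · intro l t h
    have ht := h.1
    have h0 := (hL 0).1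
    obtain ⟨h1, h2, -⟩ := K _ _ (hL 0)
    obtain ⟨h3, h4⟩ := e11_A hP h1 h2 ht h.2.2.1
    rw [CN 0 t (by linarith), (hZ 0).2.2.2.2.2.2 _ _ (by linarith) h3]
    exact h4
  · intro l t h
    rw [C l t h (-t) (by linarith), add_neg_cancel]
    exact (hΓ _ (K l t h).2.2).1

end BFE
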