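import Pool.Agent.BFE.Base
import Pool.Agent.BFE.E1a
import Pool.Agent.BFE.E1b
import Pool.Agent.BFE.E2a
import Pool.Agent.BFE.E2b
import Pool.Agent.BFE.E3

set_option autoImplicit false

open MeasureTheory Set Filter Topology

namespace BFE

open BIL

variable {n : ℕ} {P : Set ℂ} {a b : Fin n → ℂ}

namespace E5

/-- A path of positive length stays in the interior for a short time. -/
theorem pth_start {l : List (Fin n)} {w : ℂ × Ang} {T : ℝ} (hT : 0 < T)
    (h : Pth P a b l w T) : ∃ s : ℝ, 0 < s ∧ s < T ∧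
      (∀ u : ℝ, 0 < u → u ≤ s → (S u w).1 ∈ interior P) ∧ Pth P a b l (S s w) (T - s) := by
  have hSS : ∀ (s t : ℝ) (z : ℂ × Ang), S s (S t z) = S (s + t) z := BFE.S_facts.1
  cases l with
  | nil =>
    have h' : ∀ s : ℝ, 0 < s → s ≤ T → (S s w).1 ∈ interior P := h
    refine ⟨T / 2, by linarith, by linarith, fun u hu hu' => h' u hu (by linarith), ?_⟩
    intro s hs hs'
    rw [hSS]
    exact h' _ (by linarith) (by linarith)
  | cons j l' =>
    obtain ⟨τ, hτ, hτT, hint, hreg, hp⟩ := h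
    refine ⟨τ / 2, by linarith, by linarith, fun u hu hu' => hint u hu (by linarith), ?_⟩
    refine ⟨τ - τ / 2, by linarith, by linarith, ?_, ?_, ?_⟩
    · intro s hs hs'
      rw [hSS]
      exact hint _ (by linarith) (by linarith)
    · rw [hSS]
      have e : τ - τ / 2 + τ / 2 = τ := by ring
      rw [e]
      exact hreg
    · rw [hSS]
      have e : τ - τ / 2 + τ / 2 = τ := by ring
      have e2 : T - τ / 2 - (τ - τ / 2) = T - τ := by ring
      rw [e, e2]
      exact hp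

/-- A regular boundary point is not in the interior. -/
theorem reg_not_int (hP : IsPolygon P a b) {i : Fin n} {y : ℂ} (hy : Reg a b i y) :
    y ∉ interior P := by
  intro hi
  have h1 : y ∈ frontier P := by
    rw [hP.frontier_eq]
    exact Set.mem_iUnion.2 ⟨i, openSegment_subset_segment ℝ _ _ hy.1⟩
  exact h1.2 hi

/-- The end time of a path that ends in the interior is later than the first collision. -/
theorem tau_lt (hP : IsPolygon P a b) {i : Fin n} {l : List (Fin n)} {z : ℂ × Ang} {t τ : ℝ}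
    (hτt : τ ≤ t) (hr : Reg a b i (S τ z).1)
    (hp : Pth P a b l (rho a b i (S τ z)) (t - τ))
    (he : (G a b (i :: l) (S t z)).1 ∈ interior P) : τ < t := by
  rcases hτt.lt_or_eq with h | h
  · exact h
  · exfalso
    subst h
    rw [sub_self] at hp
    cases l with
    | nil =>
      have h1 : (rho a b i (S τ z)).1 = (S τ z).1 :=
        (BFE.rho_facts (fun i => hP.ne i) i).2.2.2.2.2.1 _
          (openSegment_subset_segment ℝ _ _ hr.1)
      have h2 : (G a b [i] (S τ z)).1 = (S τ z).1 := h1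
      rw [h2] at he
      exact reg_not_int hP hr he
    | cons j l' =>
      obtain ⟨τ', h1, h2, _⟩ := hp
      linarith

/-- Stability of a condition on a compact time interval. -/
theorem ev_Icc {X : Type*} [TopologicalSpace X] (f : ℝ × (ℂ × Ang) → X) (hf : Continuous f)
    {U : Set X} (hU : IsOpen U) (z₀ : ℂ × Ang) (s t : ℝ)
    (h : ∀ u ∈ Icc s t, f (u, z₀) ∈ U) : ∀ᶠ z in 𝓝 z₀, ∀ u ∈ Icc s t, f (u, z) ∈ U := by
  refine isCompact_Icc.eventually_forall_of_forall_eventually ?_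
  intro u hu
  have h1 : Continuous fun q : (ℂ × Ang) × ℝ => f (q.2, q.1) :=
    hf.comp (continuous_snd.prodMk continuous_fst)
  exact (h1.isOpen_preimage U hU).mem_nhds (h u hu)

theorem cr_add (w x y : ℂ) : cr w (x + y) = cr w x + cr w y := by
  simp only [cr, Complex.add_re, Complex.add_im]
  ring

theorem cr_smul (w : ℂ) (t : ℝ) (x : ℂ) : cr w ((t : ℂ) * x) = t * cr w x := by
  simp only [cr, Complex.mul_re, Complex.mul_im, Complex.ofReal_re, Complex.ofReal_im]
  ring

theorem cr_cont (w : ℂ) : Continuous fun x : ℂ => cr w x := by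
  unfold cr
  fun_prop

theorem dir_cont : Continuous dir := by
  unfold dir
  exact continuous_induced_dom.comp AddCircle.continuous_toCircle

theorem norm_dir (θ : Ang) : ‖dir θ‖ = 1 := by
  unfold dir
  simp

/-- One collision. -/
theorem W_single (hP : IsPolygon P a b) (i : Fin n) (r : ℝ) (z₀ : ℂ × Ang)
    (hz₀ : z₀ ∈ W P a b [i] r) : ∀ᶠ z in 𝓝 z₀, z ∈ W P a b [i] r := by
  have hne : ∀ i, a i ≠ b i := fun i => hP.ne i
  have hSS : ∀ (s t : ℝ) (z : ℂ × Ang), S s (S t z) = S (s + t) z := BFE.S_facts.1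
  have hS0 : ∀ z : ℂ × Ang, S 0 z = z := BFE.S_facts.2.1
  have hSc : Continuous fun q : ℝ × (ℂ × Ang) => S q.1 q.2 := BFE.S_facts.2.2.1
  have hrhoS : ∀ (t : ℝ) (z : ℂ × Ang), rho a b i (S t z) = S t (rho a b i z) :=
    (BFE.rho_facts hne i).2.1
  have hrc : Continuous (rho a b i) := (BFE.rho_facts hne i).2.2.2.1
  have hrfix := (BFE.rho_facts hne i).2.2.2.2.2.1
  have hrcr := (BFE.rho_facts hne i).2.2.2.2.2.2
  obtain ⟨hr0, hzi, hp, he⟩ := hz₀
  obtain ⟨τ₀, hτ₀, hτr, hint, hreg, hp1⟩ := hp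
  have hlt : τ₀ < r := tau_lt hP hτr hreg hp1 he
  have hp1' : ∀ s : ℝ, 0 < s → s ≤ r - τ₀ → (S s (rho a b i (S τ₀ z₀))).1 ∈ interior P := hp1
  set y := (S τ₀ z₀).1 with hy
  obtain ⟨ε, σ, hε, hσ, hnb⟩ := BFE.reg_nbhd hP hreg
  have htr : cr (b i - a i) (dir z₀.2) ≠ 0 := (BFE.refl_in hP hτ₀ hint hreg).2.2
  have hS1 : ∀ (u : ℝ) (z : ℂ × Ang), (S u z).1 = z.1 + (u : ℂ) * dir z.2 := fun u z => rfl
  have hS2 : ∀ (u : ℝ) (z : ℂ × Ang), (S u z).2 = z.2 := fun u z => rfl
  -- distance along the motion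
  have hdist : ∀ u : ℝ, ‖(S u z₀).1 - y‖ = |u - τ₀| := by
    intro u
    have e : (S u z₀).1 - y = ((u - τ₀ : ℝ) : ℂ) * dir z₀.2 := by
      rw [hy, hS1, hS1]
      push_cast
      ring
    rw [e, norm_mul, norm_dir, mul_one, Complex.norm_real, Real.norm_eq_abs]
  have hfixy : (rho a b i (S τ₀ z₀)).1 = y :=
    hrfix _ (openSegment_subset_segment ℝ _ _ hreg.1)
  have hdist' : ∀ u : ℝ, ‖(rho a b i (S u z₀)).1 - y‖ = |u - τ₀| := by
    intro u
    have e0 : rho a b i (S u z₀) = S (u - τ₀) (rho a b i (S τ₀ z₀)) := by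
      rw [← hrhoS, hSS]
      congr 2
      ring
    have e : (rho a b i (S u z₀)).1 - y = ((u - τ₀ : ℝ) : ℂ) * dir (rho a b i (S τ₀ z₀)).2 := by
      rw [e0, hS1, hfixy]
      ring
    rw [e, norm_mul, norm_dir, mul_one, Complex.norm_real, Real.norm_eq_abs]
  -- the constants
  have hya : 0 < ‖y - a i‖ := by
    rw [norm_pos_iff, sub_ne_zero]
    intro h
    have h1 := hreg.1
    rw [h] at h1
    exact hne i ((left_mem_openSegment_iff.1 h1))
  have hyb : 0 < ‖y - b i‖ := by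
    rw [norm_pos_iff, sub_ne_zero]
    intro h
    have h1 := hreg.1
    rw [h] at h1
    exact hne i ((right_mem_openSegment_iff.1 h1))
  obtain ⟨ε', hε', hε1, hε2, hε3⟩ : ∃ ε' : ℝ, 0 < ε' ∧ ε' ≤ ε ∧ ε' ≤ ‖y - a i‖ ∧ ε' ≤ ‖y - b i‖ :=
    ⟨min ε (min ‖y - a i‖ ‖y - b i‖), lt_min hε (lt_min hya hyb), min_le_left _ _,
      (min_le_right _ _).trans (min_le_left _ _), (min_le_right _ _).trans (min_le_right _ _)⟩
  obtain ⟨δ, hδ, hδ1, hδ2, hδ3⟩ : ∃ δ : ℝ, 0 < δ ∧ δ < τ₀ ∧ δ < r - τ₀ ∧ δ < ε' :=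
    ⟨min τ₀ (min (r - τ₀) ε') / 2, by
      have : 0 < min τ₀ (min (r - τ₀) ε') := lt_min hτ₀ (lt_min (by linarith) hε')
      linarith, by
      have : 0 < min τ₀ (min (r - τ₀) ε') := lt_min hτ₀ (lt_min (by linarith) hε')
      have h2 : min τ₀ (min (r - τ₀) ε') ≤ τ₀ := min_le_left _ _
      linarith, by
      have : 0 < min τ₀ (min (r - τ₀) ε') := lt_min hτ₀ (lt_min (by linarith) hε')
      have h2 : min τ₀ (min (r - τ₀) ε') ≤ r - τ₀ := (min_le_right _ _).trans (min_le_left _ _)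
      linarith, by
      have : 0 < min τ₀ (min (r - τ₀) ε') := lt_min hτ₀ (lt_min (by linarith) hε')
      have h2 : min τ₀ (min (r - τ₀) ε') ≤ ε' := (min_le_right _ _).trans (min_le_right _ _)
      linarith⟩
  -- the sign
  have hsg : σ * cr (b i - a i) (dir z₀.2) < 0 := by
    have h1 : (S (τ₀ - δ) z₀).1 ∈ interior P := hint _ (by linarith) (by linarith)
    have h2 : ‖(S (τ₀ - δ) z₀).1 - y‖ < ε := by
      rw [hdist]
      have : τ₀ - δ - τ₀ = -δ := by ring
      rw [this, abs_neg, abs_of_pos hδ]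
      linarith
    have h3 := ((hnb _ h2).2.2).1 h1
    have e : (S (τ₀ - δ) z₀).1 - y = ((-δ : ℝ) : ℂ) * dir z₀.2 := by
      rw [hy, hS1, hS1]
      push_cast
      ring
    rw [e, cr_smul] at h3
    by_contra hcon
    push Not at hcon
    have : 0 ≤ δ * (σ * cr (b i - a i) (dir z₀.2)) := mul_nonneg hδ.le hcon
    nlinarith
  -- the hitting time
  set c : (ℂ × Ang) → ℝ := fun z => cr (b i - a i) (dir z.2) with hc
  set τ : (ℂ × Ang) → ℝ := fun z => -cr (b i - a i) (z.1 - y) / c z with hτdef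
  have hcc : Continuous c := (cr_cont _).comp (dir_cont.comp continuous_snd)
  have hτ₀' : τ z₀ = τ₀ := by
    have e : z₀.1 - y = ((-τ₀ : ℝ) : ℂ) * dir z₀.2 := by
      rw [hy, hS1]
      push_cast
      ring
    simp only [hτdef, e, cr_smul, hc]
    field_simp
  have hτc : ContinuousAt τ z₀ := by
    refine ContinuousAt.div ?_ hcc.continuousAt htr
    exact ((cr_cont _).comp (continuous_fst.sub continuous_const)).neg.continuousAt
  have E1 : ∀ᶠ z in 𝓝 z₀, ∀ u ∈ Icc (0 : ℝ) (τ₀ - δ), (S u z).1 ∈ interior P := by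
    refine ev_Icc (fun q => (S q.1 q.2).1) (continuous_fst.comp hSc) isOpen_interior z₀ _ _ ?_
    intro u hu
    rcases hu.1.eq_or_lt with h | h
    · simp only [← h, hS0]
      exact hzi
    · exact hint u h (by linarith [hu.2])
  have E2 : ∀ᶠ z in 𝓝 z₀, ∀ u ∈ Icc (τ₀ + δ) r, (rho a b i (S u z)).1 ∈ interior P := by
    refine ev_Icc (fun q => (rho a b i (S q.1 q.2)).1) (continuous_fst.comp (hrc.comp hSc))
      isOpen_interior z₀ _ _ ?_
    intro u hu
    have h1 := hp1' (u - τ₀) (by linarith [hu.1]) (by linarith [hu.2])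
    rw [← hrhoS, hSS, sub_add_cancel] at h1
    exact h1
  have E3 : ∀ᶠ z in 𝓝 z₀, ∀ u ∈ Icc (τ₀ - δ) (τ₀ + δ), (S u z).1 ∈ Metric.ball y ε' := by
    refine ev_Icc (fun q => (S q.1 q.2).1) (continuous_fst.comp hSc) Metric.isOpen_ball z₀ _ _ ?_
    intro u hu
    rw [Metric.mem_ball, dist_eq_norm, hdist]
    have : |u - τ₀| ≤ δ := abs_le.2 ⟨by linarith [hu.1], by linarith [hu.2]⟩
    linarith
  have E4 : ∀ᶠ z in 𝓝 z₀, ∀ u ∈ Icc (τ₀ - δ) (τ₀ + δ),
      (rho a b i (S u z)).1 ∈ Metric.ball y ε' := by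
    refine ev_Icc (fun q => (rho a b i (S q.1 q.2)).1) (continuous_fst.comp (hrc.comp hSc))
      Metric.isOpen_ball z₀ _ _ ?_
    intro u hu
    rw [Metric.mem_ball, dist_eq_norm, hdist']
    have : |u - τ₀| ≤ δ := abs_le.2 ⟨by linarith [hu.1], by linarith [hu.2]⟩
    linarith
  have E5 : ∀ᶠ z in 𝓝 z₀, σ * c z < 0 := by
    have : Continuous fun z => σ * c z := continuous_const.mul hcc
    exact this.continuousAt.eventually (gt_mem_nhds hsg)
  have E6 : ∀ᶠ z in 𝓝 z₀, τ z ∈ Ioo (τ₀ - δ) (τ₀ + δ) := by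
    refine hτc.eventually (Ioo_mem_nhds ?_ ?_)
    · rw [hτ₀']; linarith
    · rw [hτ₀']; linarith
  filter_upwards [E1, E2, E3, E4, E5, E6] with z h1 h2 h3 h4 h5 h6
  have hcz : c z ≠ 0 := by
    intro h
    rw [h, mul_zero] at h5
    exact lt_irrefl _ h5
  -- the cross product along the motion
  have hcr : ∀ u : ℝ, cr (b i - a i) ((S u z).1 - y) = (u - τ z) * c z := by
    intro u
    have e : (S u z).1 - y = (z.1 - y) + (u : ℂ) * dir z.2 := by
      rw [hS1]
      ring
    rw [e, cr_add, cr_smul]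
    have e2 : cr (b i - a i) (z.1 - y) = -(τ z * c z) := by
      simp only [hτdef]
      field_simp
    rw [e2]
    simp only [hc]
    ring
  have hball : ∀ x : ℂ, x ∈ Metric.ball y ε' → ‖x - y‖ < ε := by
    intro x hx
    rw [Metric.mem_ball, dist_eq_norm] at hx
    linarith
  have hτI : τ z ∈ Icc (τ₀ - δ) (τ₀ + δ) := ⟨h6.1.le, h6.2.le⟩
  have hx0 := h3 (τ z) hτI
  have hxcr : cr (b i - a i) ((S (τ z) z).1 - y) = 0 := by
    rw [hcr, sub_self, zero_mul]
  have hxs := (hnb _ (hball _ hx0)).2.1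
  have hregz : Reg a b i (S (τ z) z).1 := by
    refine ⟨?_, ?_⟩
    · refine mem_openSegment_of_ne_left_right ?_ ?_ ((hxs i).2 ⟨rfl, hxcr⟩)
      · intro h
        rw [Metric.mem_ball, dist_eq_norm, ← h, norm_sub_rev] at hx0
        linarith
      · intro h
        rw [Metric.mem_ball, dist_eq_norm, ← h, norm_sub_rev] at hx0
        linarith
    · intro j hj h
      exact hj ((hxs j).1 h).1
  have hfixz : (rho a b i (S (τ z) z)).1 = (S (τ z) z).1 :=
    hrfix _ (openSegment_subset_segment ℝ _ _ hregz.1)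
  -- after the collision
  have hafter : ∀ u : ℝ, τ z < u → u ≤ r → (rho a b i (S u z)).1 ∈ interior P := by
    intro u hu hur
    rcases le_or_gt (τ₀ + δ) u with h | h
    · exact h2 u ⟨h, hur⟩
    · have huI : u ∈ Icc (τ₀ - δ) (τ₀ + δ) := ⟨by linarith [h6.1], h.le⟩
      refine ((hnb _ (hball _ (h4 u huI))).2.2).2 ?_
      have e0 : rho a b i (S u z) = S (u - τ z) (rho a b i (S (τ z) z)) := by
        rw [← hrhoS, hSS, sub_add_cancel]
      have e : (rho a b i (S u z)).1 - y = ((S (τ z) z).1 - y) +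
          ((u - τ z : ℝ) : ℂ) * dir (rho a b i (S (τ z) z)).2 := by
        rw [e0, hS1, hfixz]
        ring
      rw [e, cr_add, hxcr, cr_smul, hrcr]
      simp only [hS2]
      have : 0 < (u - τ z) * -(σ * c z) := mul_pos (by linarith) (by linarith)
      simp only [hc] at this
      linarith
  have hτr' : τ z < r := by linarith [h6.2]
  refine ⟨hr0, ?_, ⟨τ z, by linarith [h6.1], hτr'.le, ?_, hregz, ?_⟩, ?_⟩
  · have := h1 0 ⟨le_rfl, by linarith⟩
    rw [hS0] at this
    exact this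
  · intro u hu hu'
    rcases le_or_gt u (τ₀ - δ) with h | h
    · exact h1 u ⟨hu.le, h⟩
    · have huI : u ∈ Icc (τ₀ - δ) (τ₀ + δ) := ⟨h.le, by linarith [h6.2]⟩
      refine ((hnb _ (hball _ (h3 u huI))).2.2).2 ?_
      rw [hcr]
      have : 0 < (τ z - u) * -(σ * c z) := mul_pos (by linarith) (by linarith)
      linarith
  · intro s hs hs'
    rw [← hrhoS, hSS]
    exact hafter _ (by linarith) (by linarith)
  · exact hafter r hτr' le_rfl

end E5

/-- [E5] stability. -/
theorem W_open (hP : IsPolygon P a b) (l : List (Fin n)) (t : ℝ) : IsOpen (W P a b l t) := by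
  have hne : ∀ i, a i ≠ b i := fun i => hP.ne i
  have hSS : ∀ (s t : ℝ) (z : ℂ × Ang), S s (S t z) = S (s + t) z := BFE.S_facts.1
  have hS0 : ∀ z : ℂ × Ang, S 0 z = z := BFE.S_facts.2.1
  have hSc : Continuous fun q : ℝ × (ℂ × Ang) => S q.1 q.2 := BFE.S_facts.2.2.1
  induction l generalizing t with
  | nil =>
    rw [isOpen_iff_mem_nhds]
    intro z₀ hz₀
    obtain ⟨ht, hzi, hp, he⟩ := hz₀
    have hp' : ∀ s : ℝ, 0 < s → s ≤ t → (S s z₀).1 ∈ interior P := hp
    have E1 : ∀ᶠ z in 𝓝 z₀, ∀ u ∈ Icc (0 : ℝ) t, (S u z).1 ∈ interior P := by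
      refine E5.ev_Icc (fun q => (S q.1 q.2).1) (continuous_fst.comp hSc) isOpen_interior z₀ _ _ ?_
      intro u hu
      rcases hu.1.eq_or_lt with h | h
      · simp only [← h, hS0]
        exact hzi
      · exact hp' u h hu.2
    refine Filter.mem_of_superset E1 ?_
    intro z hz
    refine ⟨ht, ?_, ?_, ?_⟩
    · have := hz 0 ⟨le_rfl, ht⟩
      rw [hS0] at this
      exact this
    · intro s hs hst
      exact hz s ⟨hs.le, hst⟩
    · exact hz t ⟨ht, le_rfl⟩
  | cons i l ih =>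
    rw [isOpen_iff_mem_nhds]
    intro z₀ hz₀
    obtain ⟨ht, hzi, hp, he⟩ := hz₀
    obtain ⟨τ, hτ, hτt, hint, hreg, hp1⟩ := hp
    have hlt : τ < t := E5.tau_lt hP hτt hreg hp1 he
    obtain ⟨s, hs, hsT, hsi, hp2⟩ := E5.pth_start (by linarith : 0 < t - τ) hp1
    have hrhoS : ∀ (t : ℝ) (z : ℂ × Ang), rho a b i (S t z) = S t (rho a b i z) :=
      (BFE.rho_facts hne i).2.1
    have hrc : Continuous (rho a b i) := (BFE.rho_facts hne i).2.2.2.1
    have e1 : S s (rho a b i (S τ z₀)) = rho a b i (S (τ + s) z₀) := by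
      rw [← hrhoS, hSS, add_comm]
    have hA : z₀ ∈ W P a b [i] (τ + s) := by
      refine ⟨by linarith, hzi, ⟨τ, hτ, by linarith, hint, hreg, ?_⟩, ?_⟩
      · intro u hu hu'
        exact hsi u hu (by linarith)
      · change (rho a b i (S (τ + s) z₀)).1 ∈ interior P
        rw [← e1]
        exact hsi s hs le_rfl
    have hB : rho a b i (S (τ + s) z₀) ∈ W P a b l (t - (τ + s)) := by
      rw [← e1]
      refine ⟨by linarith, hsi s hs le_rfl, ?_, ?_⟩
      · have e2 : t - (τ + s) = t - τ - s := by ring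
        rw [e2]
        exact hp2
      · rw [e1, ← hrhoS, hSS]
        have e2 : t - (τ + s) + (τ + s) = t := by ring
        rw [e2]
        exact he
    have hcont : Continuous fun z : ℂ × Ang => rho a b i (S (τ + s) z) :=
      hrc.comp (hSc.comp (continuous_const.prodMk continuous_id))
    have hU : ∀ᶠ z in 𝓝 z₀, rho a b i (S (τ + s) z) ∈ W P a b l (t - (τ + s)) :=
      ((ih (t - (τ + s))).preimage hcont).mem_nhds hB
    filter_upwards [E5.W_single hP i (τ + s) z₀ hA, hU] with z hz1 hz2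
    refine ⟨ht, hz1.2.1, ?_, ?_⟩
    · have h3 := BFE.pth_append (t := τ + s) (t' := t - (τ + s)) hne (by linarith)
        (by linarith) hz1.2.2.1 (by exact hz2.2.2.1)
      have e : τ + s + (t - (τ + s)) = t := by ring
      rw [e] at h3
      exact h3
    · have h4 := hz2.2.2.2
      rw [← hrhoS, hSS] at h4
      have e2 : t - (τ + s) + (τ + s) = t := by ring
      rw [e2] at h4
      exact h4

end BFE
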