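import Pool.Agent.BFE.Base
import Pool.Agent.BFE.E1a
import Pool.Agent.BFE.E1b
import Pool.Agent.BFE.E2b
import Pool.Agent.BFE.E3

/-! # BFE: row E6a -/

set_option autoImplicit false

open MeasureTheory Set Filter Topology

namespace BFE

open BIL

variable {n : ℕ} {P : Set ℂ} {a b : Fin n → ℂ}

theorem E6a_norm_dir (θ : Ang) : ‖dir θ‖ = 1 := by
  unfold dir
  exact Circle.norm_coe _

/-- radial velocity -/
noncomputable def E6a_g (q : ℂ) (z : ℂ × Ang) : ℝ := ((z.1 - q) * (starRingEnd ℂ) (dir z.2)).re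

theorem E6a_dir_rho (hne : ∀ i, a i ≠ b i) (i : Fin n) (z : ℂ × Ang) :
    dir (rho a b i z).2 =
      (b i - a i) / (starRingEnd ℂ) (b i - a i) * (starRingEnd ℂ) (dir z.2) := by
  have h := congrArg Prod.fst ((BFE.rho_facts hne i).2.1 1 z)
  have h1 : a i + (b i - a i) / (starRingEnd ℂ) (b i - a i) *
      (starRingEnd ℂ) (z.1 + ((1 : ℝ) : ℂ) * dir z.2 - a i) =
      a i + (b i - a i) / (starRingEnd ℂ) (b i - a i) * (starRingEnd ℂ) (z.1 - a i) +
        ((1 : ℝ) : ℂ) * dir (rho a b i z).2 := h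
  simp only [Complex.ofReal_one, one_mul, map_add, map_sub] at h1 ⊢
  linear_combination -h1

theorem E6a_step (hne : ∀ i, a i ≠ b i) (i : Fin n) (z : ℂ × Ang) (t τ : ℝ) :
    rho a b i (S t z) = S (t - τ) (rho a b i (S τ z)) := by
  rw [← (BFE.rho_facts hne i).2.1, BFE.S_facts.1, sub_add_cancel]

/-- the positions are Lipschitz -/
theorem E6a_lip (hne : ∀ i, a i ≠ b i) : ∀ (l : List (Fin n)) (z : ℂ × Ang) (t : ℝ), 0 ≤ t →
    Pth P a b l z t → ‖(G a b l (S t z)).1 - z.1‖ ≤ t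
  | [], z, t, ht, _ => by
    have e : (G a b [] (S t z)).1 - z.1 = (t : ℂ) * dir z.2 := by
      simp only [G, S]
      ring
    rw [e, norm_mul, Complex.norm_real, E6a_norm_dir, mul_one, Real.norm_eq_abs,
      abs_of_nonneg ht]
  | i :: l, z, t, ht, h => by
    obtain ⟨τ, h0, h1, -, hr, h2⟩ := h
    have ih := E6a_lip hne l (rho a b i (S τ z)) (t - τ) (by linarith) h2
    rw [← E6a_step hne i z t τ] at ih
    have e1 : (rho a b i (S τ z)).1 = (S τ z).1 :=
      (BFE.rho_facts hne i).2.2.2.2.2.1 _ (openSegment_subset_segment ℝ _ _ hr.1)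
    rw [e1] at ih
    have e2 : ‖(S τ z).1 - z.1‖ = τ := by
      have e : (S τ z).1 - z.1 = (τ : ℂ) * dir z.2 := by
        simp only [S]
        ring
      rw [e, norm_mul, Complex.norm_real, E6a_norm_dir, mul_one, Real.norm_eq_abs,
        abs_of_pos h0]
    have e3 : (G a b (i :: l) (S t z)).1 - z.1 =
        ((G a b l (rho a b i (S t z))).1 - (S τ z).1) + ((S τ z).1 - z.1) := by
      show (G a b l (rho a b i (S t z))).1 - z.1 = _
      ring
    rw [e3]
    refine (norm_add_le _ _).trans ?_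
    rw [e2]
    linarith

/-- two points of a segment -/
theorem E6a_seg {i : Fin n} {y q : ℂ} (hy : y ∈ segment ℝ (a i) (b i))
    (hq : q ∈ segment ℝ (a i) (b i)) : ∃ c : ℝ, y - q = (c : ℂ) * (b i - a i) := by
  rw [segment_eq_image'] at hy hq
  obtain ⟨s, -, hs⟩ := hy
  obtain ⟨t, -, ht⟩ := hq
  simp only [Complex.real_smul] at hs ht
  refine ⟨s - t, ?_⟩
  rw [← hs, ← ht]
  push_cast
  ring

theorem E6a_g_rho (hne : ∀ i, a i ≠ b i) {i : Fin n} {q : ℂ} {z : ℂ × Ang}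
    (hz : z.1 ∈ segment ℝ (a i) (b i)) (hq : q ∈ segment ℝ (a i) (b i)) :
    E6a_g q (rho a b i z) = E6a_g q z := by
  have hv : b i - a i ≠ 0 := sub_ne_zero.mpr (hne i).symm
  obtain ⟨c, hc⟩ := E6a_seg hz hq
  unfold E6a_g
  rw [E6a_dir_rho hne, (BFE.rho_facts hne i).2.2.2.2.2.1 _ hz, hc, map_mul, map_div₀,
    Complex.conj_conj, Complex.conj_conj]
  have e : (c : ℂ) * (b i - a i) * ((starRingEnd ℂ) (b i - a i) / (b i - a i) * dir z.2) =
      (c : ℂ) * ((starRingEnd ℂ) (b i - a i) * dir z.2) := by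
    field_simp
  rw [e, mul_assoc, Complex.re_ofReal_mul, Complex.re_ofReal_mul]
  congr 1
  simp only [Complex.mul_re, Complex.conj_re, Complex.conj_im]
  ring

theorem E6a_g_free (q : ℂ) (z : ℂ × Ang) (t : ℝ) : E6a_g q (S t z) = E6a_g q z + t := by
  have h1 : dir z.2 * (starRingEnd ℂ) (dir z.2) = 1 := by
    rw [Complex.mul_conj, Complex.normSq_eq_norm_sq, E6a_norm_dir]
    norm_num
  have e : (z.1 + (t : ℂ) * dir z.2 - q) * (starRingEnd ℂ) (dir z.2) =
      (z.1 - q) * (starRingEnd ℂ) (dir z.2) + (t : ℂ) := by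
    linear_combination (t : ℂ) * h1
  show ((z.1 + (t : ℂ) * dir z.2 - q) * (starRingEnd ℂ) (dir z.2)).re = _
  rw [e, Complex.add_re, Complex.ofReal_re]
  rfl

/-- the radial velocity along a path close to `q` -/
theorem E6a_path (hne : ∀ i, a i ≠ b i) {q : ℂ} {r : ℝ}
    (hr : ∀ x : ℂ, ‖x - q‖ < r → ∀ j, x ∈ segment ℝ (a j) (b j) → q ∈ segment ℝ (a j) (b j)) :
    ∀ (l : List (Fin n)) (z : ℂ × Ang) (t : ℝ), 0 ≤ t → Pth P a b l z t → ‖z.1 - q‖ + t < r →
      E6a_g q (G a b l (S t z)) = E6a_g q z + t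
  | [], z, t, _, _, _ => E6a_g_free q z t
  | i :: l, z, t, ht, h, hzt => by
    obtain ⟨τ, h0, h1, -, hreg, h2⟩ := h
    have hys := openSegment_subset_segment ℝ _ _ hreg.1
    have e1 : (rho a b i (S τ z)).1 = (S τ z).1 := (BFE.rho_facts hne i).2.2.2.2.2.1 _ hys
    have e2 : ‖(S τ z).1 - q‖ ≤ ‖z.1 - q‖ + τ := by
      have e : (S τ z).1 - q = (z.1 - q) + (τ : ℂ) * dir z.2 := by
        simp only [S]
        ring
      rw [e]
      refine (norm_add_le _ _).trans ?_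
      rw [norm_mul, Complex.norm_real, E6a_norm_dir, mul_one, Real.norm_eq_abs, abs_of_pos h0]
    have hq : q ∈ segment ℝ (a i) (b i) := hr _ (by linarith) i hys
    have ih := E6a_path hne hr l (rho a b i (S τ z)) (t - τ) (by linarith) h2
      (by rw [e1]; linarith)
    rw [← E6a_step hne i z t τ, E6a_g_rho hne hys hq] at ih
    show E6a_g q (G a b l (rho a b i (S t z))) = _
    rw [ih, E6a_g_free]
    ring

/-- [E6a] the collisions do not accumulate. -/
theorem no_acc (hP : IsPolygon P a b) {z : ℂ × Ang} (hz : z.1 ∈ interior P) {T : ℝ} (hT : 0 < T)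
    (h : ∀ t : ℝ, 0 ≤ t → t < T → ∃ l, Pth P a b l z t) :
    ∃ l, ∃ t₀ : ℝ, 0 ≤ t₀ ∧ t₀ < T ∧ ∀ t : ℝ, t₀ ≤ t → t < T → Pth P a b l z t := by
  classical
  have hne := hP.ne
  obtain ⟨hGa, -, hGS, -, -, -⟩ := BFE.G_facts (a := a) (b := b) hne
  -- the states
  obtain ⟨w, hw⟩ : ∃ w : ℝ → ℂ × Ang, ∀ l t, Pth P a b l z t → w t = G a b l (S t z) := by
    refine ⟨fun t => if h : ∃ l, Pth P a b l z t then G a b h.choose (S t z) else z, ?_⟩
    intro l t hl
    have hex : ∃ l, Pth P a b l z t := ⟨l, hl⟩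
    simp only [dif_pos hex]
    rw [BFE.pth_unique hP hex.choose_spec hl]
  -- splitting
  have key : ∀ (s t : ℝ) (l₁ l₂ : List (Fin n)), 0 ≤ s → s ≤ t → Pth P a b l₁ z s →
      Pth P a b l₂ z t → ∃ m, l₂ = l₁ ++ m ∧ Pth P a b m (w s) (t - s) ∧
        w t = G a b m (S (t - s) (w s)) := by
    intro s t l₁ l₂ hs hst h₁ h₂
    obtain ⟨l₁', m, e, h3, h4⟩ := BFE.pth_split hne hs hst h₂
    have e2 := BFE.pth_unique hP h3 h₁
    subst e2
    refine ⟨m, e, ?_, ?_⟩
    · rw [hw _ _ h3]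
      exact h4
    · rw [hw _ _ h₂, hw _ _ h3, e, hGa, ← hGS, BFE.S_facts.1, sub_add_cancel]
  have hlip' : ∀ s t : ℝ, 0 ≤ s → s ≤ t → t < T → ‖(w t).1 - (w s).1‖ ≤ t - s := by
    intro s t hs hst ht
    obtain ⟨l₁, h₁⟩ := h s hs (by linarith)
    obtain ⟨l₂, h₂⟩ := h t (by linarith) ht
    obtain ⟨m, -, h3, h4⟩ := key s t l₁ l₂ hs hst h₁ h₂
    rw [h4]
    exact E6a_lip hne m _ _ (by linarith) h3
  have hlip : ∀ s t : ℝ, 0 ≤ s → s < T → 0 ≤ t → t < T →
      dist (w s).1 (w t).1 ≤ dist s t := by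
    intro s t hs0 hs1 ht0 ht1
    rcases le_total s t with hst | hst
    · rw [dist_comm, dist_eq_norm, dist_comm, Real.dist_eq, abs_of_nonneg (by linarith)]
      exact hlip' s t hs0 hst ht1
    · rw [dist_eq_norm, Real.dist_eq, abs_of_nonneg (by linarith)]
      exact hlip' t s ht0 hst hs1
  -- the limit point
  set u : ℕ → ℝ := fun k => T - T * (1 / ((k : ℝ) + 1)) with hu
  have hu0 : ∀ k, 0 ≤ u k := by
    intro k
    have h1 : (1 : ℝ) / ((k : ℝ) + 1) ≤ 1 := by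
      rw [div_le_one (by positivity)]
      have : (0 : ℝ) ≤ k := Nat.cast_nonneg k
      linarith
    have h2 : T * (1 / ((k : ℝ) + 1)) ≤ T * 1 := mul_le_mul_of_nonneg_left h1 hT.le
    simp only [hu]
    linarith
  have hu1 : ∀ k, u k < T := by
    intro k
    have h1 : 0 < T * (1 / ((k : ℝ) + 1)) := by positivity
    simp only [hu]
    linarith
  have hut : Tendsto u atTop (𝓝 T) := by
    have h1 := (tendsto_one_div_add_atTop_nhds_zero_nat (𝕜 := ℝ)).const_mul T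
    have h2 := h1.const_sub T
    rw [mul_zero, sub_zero] at h2
    exact h2
  have hcau : CauchySeq fun k => (w (u k)).1 := by
    have h1 := hut.cauchySeq
    rw [Metric.cauchySeq_iff] at h1 ⊢
    intro ε hε
    obtain ⟨N, hN⟩ := h1 ε hε
    exact ⟨N, fun m hm k hk => (hlip _ _ (hu0 m) (hu1 m) (hu0 k) (hu1 k)).trans_lt (hN m hm k hk)⟩
  obtain ⟨q, hq⟩ := cauchySeq_tendsto_of_complete hcau
  have hqb : ∀ t : ℝ, 0 ≤ t → t < T → ‖(w t).1 - q‖ ≤ T - t := by
    intro t ht0 ht1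
    have h1 : Tendsto (fun k => dist (w t).1 (w (u k)).1) atTop (𝓝 (dist (w t).1 q)) :=
      tendsto_const_nhds.dist hq
    have h2 : Tendsto (fun k => dist t (u k)) atTop (𝓝 (dist t T)) :=
      tendsto_const_nhds.dist hut
    have h3 := le_of_tendsto_of_tendsto' h1 h2 fun k => hlip _ _ ht0 ht1 (hu0 k) (hu1 k)
    rw [dist_eq_norm, dist_comm, Real.dist_eq, abs_of_nonneg (by linarith)] at h3
    exact h3
  -- the sides near `q`
  obtain ⟨r, hr0, hr⟩ : ∃ r : ℝ, 0 < r ∧ ∀ x : ℂ, ‖x - q‖ < r → ∀ j,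
      x ∈ segment ℝ (a j) (b j) → q ∈ segment ℝ (a j) (b j) := by
    have hev : ∀ᶠ x in 𝓝 q, ∀ j, x ∈ segment ℝ (a j) (b j) → q ∈ segment ℝ (a j) (b j) := by
      rw [Filter.eventually_all]
      intro j
      by_cases hj : q ∈ segment ℝ (a j) (b j)
      · exact Filter.Eventually.of_forall fun x _ => hj
      · have hcl : IsClosed (segment ℝ (a j) (b j)) := by
          rw [← closure_openSegment]
          exact isClosed_closure
        filter_upwards [hcl.isOpen_compl.mem_nhds hj] with x hx hx' using absurd hx' hx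
    obtain ⟨r, hr, hr'⟩ := Metric.eventually_nhds_iff.mp hev
    exact ⟨r, hr, fun x hx => hr' (by rw [dist_eq_norm]; exact hx)⟩
  obtain ⟨t₀, ht₀, ht₀T, ht₀r⟩ : ∃ t₀ : ℝ, 0 ≤ t₀ ∧ t₀ < T ∧ T - t₀ ≤ r / 3 := by
    refine ⟨max 0 (T - r / 3), le_max_left _ _, max_lt hT (by linarith), ?_⟩
    have := le_max_right 0 (T - r / 3)
    linarith
  obtain ⟨l₀, hl₀⟩ := h t₀ ht₀ ht₀T
  have hq0 := hqb t₀ ht₀ ht₀T
  -- the radial velocity
  have hg : ∀ (m : List (Fin n)) (s : ℝ), 0 ≤ s → s < T - t₀ → Pth P a b m (w t₀) s →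
      E6a_g q (G a b m (S s (w t₀))) = E6a_g q (w t₀) + s := by
    intro m s hs0 hs1 hm
    exact E6a_path hne hr m (w t₀) s hs0 hm (by linarith)
  have habs : ∀ v : ℂ × Ang, |E6a_g q v| ≤ ‖v.1 - q‖ := by
    intro v
    have h1 := Complex.abs_re_le_norm ((v.1 - q) * (starRingEnd ℂ) (dir v.2))
    rw [norm_mul, RCLike.norm_conj, E6a_norm_dir, mul_one] at h1
    exact h1
  have hz0 : E6a_g q (w t₀) = -(T - t₀) := by
    have h1 : ∀ t : ℝ, t₀ ≤ t → t < T → |E6a_g q (w t₀) + (T - t₀)| ≤ 2 * (T - t) := by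
      intro t ht0 ht1
      obtain ⟨l₂, h₂⟩ := h t (by linarith) ht1
      obtain ⟨m, -, h3, h4⟩ := key t₀ t l₀ l₂ ht₀ ht0 hl₀ h₂
      have h5 := hg m (t - t₀) (by linarith) (by linarith) h3
      rw [← h4] at h5
      have h6 := (habs (w t)).trans (hqb t (by linarith) ht1)
      rw [h5, abs_le] at h6
      rw [abs_le]
      constructor
      · linarith [h6.1]
      · linarith [h6.2]
    by_contra hc
    have h2 : 0 < |E6a_g q (w t₀) + (T - t₀)| := by
      rw [abs_pos]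
      intro h3
      exact hc (by linarith)
    have h3 := h1 (max t₀ (T - |E6a_g q (w t₀) + (T - t₀)| / 4)) (le_max_left _ _)
      (max_lt ht₀T (by linarith))
    have h4 := le_max_right t₀ (T - |E6a_g q (w t₀) + (T - t₀)| / 4)
    linarith
  refine ⟨l₀, t₀, ht₀, ht₀T, fun t ht0 ht1 => ?_⟩
  obtain ⟨l₂, h₂⟩ := h t (by linarith) ht1
  obtain ⟨m, hm, h3, h4⟩ := key t₀ t l₀ l₂ ht₀ ht0 hl₀ h₂
  rcases m with _ | ⟨i, m⟩
  · rw [List.append_nil] at hm
    rw [← hm]
    exact h₂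
  exfalso
  obtain ⟨τ, hτ0, hτ1, hfree, hreg, -⟩ := h3
  have hpi : Pth P a b [i] (w t₀) τ := by
    refine ⟨τ, hτ0, le_refl _, hfree, hreg, ?_⟩
    intro s hs0 hs1
    linarith
  have hys := openSegment_subset_segment ℝ _ _ hreg.1
  obtain ⟨-, -, -, -, -, hpos, hcr⟩ := BFE.rho_facts (a := a) (b := b) hne i
  have e1 := hpos _ hys
  have hgi := hg [i] τ hτ0.le (by linarith) hpi
  have hws : w (t₀ + τ) = rho a b i (S τ (w t₀)) := by
    have h5 : Pth P a b [i] (G a b l₀ (S t₀ z)) τ := by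
      rw [← hw _ _ hl₀]
      exact hpi
    have h6 := BFE.pth_append hne ht₀ hτ0.le hl₀ h5
    rw [hw _ _ h6, hGa, hw _ _ hl₀, add_comm t₀ τ, ← BFE.S_facts.1, hGS]
    rfl
  have hb := hqb (t₀ + τ) (by linarith) (by linarith)
  rw [hws] at hb
  have hgi' : E6a_g q (rho a b i (S τ (w t₀))) = E6a_g q (w t₀) + τ := hgi
  rw [hz0] at hgi'
  have hq : q ∈ segment ℝ (a i) (b i) := by
    refine hr (rho a b i (S τ (w t₀))).1 ?_ i (by rw [e1]; exact hys)
    linarith
  obtain ⟨c, hc⟩ := E6a_seg hys hq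
  obtain ⟨-, -, htr⟩ := BFE.refl_in hP hτ0 hfree hreg
  have htr2 : cr (b i - a i) (dir (rho a b i (S τ (w t₀))).2) ≠ 0 := by
    rw [hcr]
    exact neg_ne_zero.mpr htr
  apply htr2
  -- computation
  generalize hd : dir (rho a b i (S τ (w t₀))).2 = d at *
  have hdn : ‖d‖ = 1 := by rw [← hd]; exact E6a_norm_dir _
  have hdn2 : d.re * d.re + d.im * d.im = 1 := by
    have := Complex.normSq_eq_norm_sq d
    rw [hdn, Complex.normSq_apply] at this
    linarith
  have hX : (rho a b i (S τ (w t₀))).1 - q = (c : ℂ) * (b i - a i) := by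
    rw [e1]
    exact hc
  unfold E6a_g at hgi'
  rw [hd, hX] at hgi'
  rw [hX] at hb
  have hb2 : ((c : ℂ) * (b i - a i)).re * ((c : ℂ) * (b i - a i)).re +
      ((c : ℂ) * (b i - a i)).im * ((c : ℂ) * (b i - a i)).im ≤ (T - (t₀ + τ)) ^ 2 := by
    rw [← Complex.normSq_apply, Complex.normSq_eq_norm_sq]
    exact pow_le_pow_left₀ (norm_nonneg _) hb 2
  have hρ : 0 < T - (t₀ + τ) := by linarith
  have hcr0 : cr (b i - a i) ((c : ℂ) * (b i - a i)) = 0 := by
    simp only [cr, Complex.mul_re, Complex.mul_im, Complex.ofReal_re, Complex.ofReal_im]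
    ring
  generalize (c : ℂ) * (b i - a i) = X at *
  generalize b i - a i = v at *
  generalize hρ' : T - (t₀ + τ) = ρ at *
  simp only [Complex.mul_re, Complex.conj_re, Complex.conj_im] at hgi'
  have hgi2 : X.re * d.re + X.im * d.im = -ρ := by linarith
  have hsq : (X.re + ρ * d.re) ^ 2 + (X.im + ρ * d.im) ^ 2 ≤ 0 := by
    have e : (X.re + ρ * d.re) ^ 2 + (X.im + ρ * d.im) ^ 2 =
        (X.re * X.re + X.im * X.im) + 2 * ρ * (X.re * d.re + X.im * d.im) +
          ρ ^ 2 * (d.re * d.re + d.im * d.im) := by ring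
    rw [e, hgi2, hdn2]
    linarith
  have h5 : X.re + ρ * d.re = 0 := by
    have h6 := sq_nonneg (X.re + ρ * d.re)
    have h7 := sq_nonneg (X.im + ρ * d.im)
    have h8 : (X.re + ρ * d.re) ^ 2 = 0 := by linarith
    exact pow_eq_zero_iff (two_ne_zero) |>.mp h8
  have h6 : X.im + ρ * d.im = 0 := by
    have h6 := sq_nonneg (X.re + ρ * d.re)
    have h7 := sq_nonneg (X.im + ρ * d.im)
    have h8 : (X.im + ρ * d.im) ^ 2 = 0 := by linarith
    exact pow_eq_zero_iff (two_ne_zero) |>.mp h8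
  have h7 : ρ * cr v d = 0 := by
    unfold cr at hcr0 ⊢
    linear_combination v.re * h6 - v.im * h5 - hcr0
  rcases mul_eq_zero.mp h7 with h8 | h8
  · exact absurd h8 hρ.ne'
  · exact h8

end BFE
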