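import Pool.Agent.BFE.Base
import Pool.Agent.BFE.E1a
import Pool.Agent.BFE.E1b
import Pool.Agent.BFE.E2b
import Pool.Agent.BFE.E3
import Pool.Agent.BFE.E6a

/-!
-/

set_option autoImplicit false

open MeasureTheory Set Filter Topology

namespace BFE

open BIL

variable {n : ℕ} {P : Set ℂ} {a b : Fin n → ℂ}

private theorem e6b_ev {p : ℝ → Prop} (h : ∀ᶠ s : ℝ in 𝓝[>] 0, p s) :
    ∃ ε : ℝ, 0 < ε ∧ ∀ s : ℝ, 0 < s → s ≤ ε → p s := by
  obtain ⟨ε, hε, h⟩ := mem_nhdsGT_iff_exists_Ioc_subset.1 h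
  exact ⟨ε, hε, fun s h1 h2 => h ⟨h1, h2⟩⟩

private theorem e6b_ext (hP : IsPolygon P a b) {l : List (Fin n)} {z : ℂ × Ang} {t ε : ℝ}
    (ht : 0 ≤ t) (hε : 0 ≤ ε) (h : Pth P a b l z t)
    (h1 : ∀ s : ℝ, 0 < s → s ≤ ε → (S s (G a b l (S t z))).1 ∈ interior P) :
    Pth P a b l z (t + ε) := by
  have h2 := BFE.pth_append (l := l) (l' := []) (z := z) hP.ne ht hε h h1
  rwa [List.append_nil] at h2

theorem not_Om (hP : IsPolygon P a b) {z : ℂ × Ang} (hz : z.1 ∈ interior P) (h : z ∉ Om P a b) :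
    ∃ l, ∃ s : ℝ, (G a b l (S s z)).1 ∈ Vx P a b := by
  have hcomm : ∀ l (s t : ℝ), G a b l (S (s + t) z) = S s (G a b l (S t z)) := by
    intro l s t
    rw [← BFE.S_facts.1 s t z, (BFE.G_facts (a := a) (b := b) hP.ne).2.2.1 l s (S t z)]
  have hzev : ∀ᶠ s : ℝ in 𝓝[>] 0, (S s z).1 ∈ interior P := by
    have h1 : ContinuousAt (fun s : ℝ => (S s z).1) 0 := by
      have : Continuous fun s : ℝ => (S s z).1 := by
        unfold S; fun_prop
      exact this.continuousAt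
    have h2 : ∀ᶠ s : ℝ in 𝓝 0, (S s z).1 ∈ interior P := by
      refine h1.eventually (isOpen_interior.mem_nhds ?_)
      change (S 0 z).1 ∈ interior P
      rw [BFE.S_facts.2.1 z]; exact hz
    exact h2.filter_mono nhdsWithin_le_nhds
  have hfut : ∀ (l : List (Fin n)) (t : ℝ), 0 ≤ t → Pth P a b l z t → ∃ ε : ℝ, 0 < ε ∧
      Pth P a b l z (t + ε) ∧ (G a b l (S (t + ε) z)).1 ∈ interior P := by
    intro l t ht hp
    obtain ⟨ε, hε, h1⟩ := e6b_ev (BFE.pth_end hP ht hzev hp).1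
    refine ⟨ε, hε, e6b_ext hP ht hε.le hp h1, ?_⟩
    rw [add_comm, hcomm]
    exact h1 ε hε le_rfl
  let A : Set ℝ := {t | 0 ≤ t ∧ ∃ l, Pth P a b l z t}
  have hA0' : Pth P a b [] z 0 := fun s h1 h2 => absurd h2 (not_le.2 h1)
  have hA0 : (0 : ℝ) ∈ A := ⟨le_rfl, [], hA0'⟩
  have hdown : ∀ s t : ℝ, 0 ≤ s → s ≤ t → t ∈ A → s ∈ A := by
    rintro s t hs hst ⟨-, l, hl⟩
    obtain ⟨l₁, l₂, -, h1, -⟩ := BFE.pth_split hP.ne hs hst hl
    exact ⟨hs, l₁, h1⟩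
  have hbdd : BddAbove A := by
    by_contra hb
    apply h
    intro N
    rw [not_bddAbove_iff] at hb
    obtain ⟨t, ⟨ht0, l, hl⟩, hNt⟩ := hb N
    obtain ⟨ε, hε, h1, h2⟩ := hfut l t ht0 hl
    exact ⟨t + ε, by linarith, l, by linarith, hz, h1, h2⟩
  have hlt : ∀ t : ℝ, 0 ≤ t → t < sSup A → ∃ l, Pth P a b l z t := by
    intro t ht htT
    obtain ⟨t', ht', htt'⟩ := exists_lt_of_lt_csSup ⟨0, hA0⟩ htT
    exact (hdown t t' ht htt'.le ht').2
  have hle : ∀ t ∈ A, t ≤ sSup A := fun t ht => le_csSup hbdd ht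
  have hT : 0 < sSup A := by
    obtain ⟨ε, hε, h1, -⟩ := hfut [] 0 le_rfl hA0'
    exact lt_of_lt_of_le (by linarith) (hle (0 + ε) ⟨by linarith, [], h1⟩)
  obtain ⟨l, t₀, ht₀, ht₀T, hl⟩ := BFE.no_acc hP hz hT hlt
  have hl0 := hl t₀ le_rfl ht₀T
  obtain ⟨τ, hτ, hf, hfr⟩ := BFE.first_hit hP (BFE.pth_end hP ht₀ hzev hl0).1
  have h1 : sSup A ≤ t₀ + τ := by
    by_contra hcon
    push Not at hcon
    obtain ⟨l₁, l₂, h2, h3, h4⟩ := BFE.pth_split hP.ne ht₀ (by linarith)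
      (hl (t₀ + τ) (by linarith) hcon)
    have h5 : l₁ = l := BFE.pth_unique hP h3 hl0
    have h6 : l₂ = [] := by
      rw [h5] at h2
      exact List.self_eq_append_right.1 h2
    subst h5 h6
    have h7 : (S τ (G a b l₁ (S t₀ z))).1 ∈ interior P := h4 τ hτ (by linarith)
    exact hfr.2 h7
  have h2 : t₀ + τ ≤ sSup A := by
    by_contra hcon
    push Not at hcon
    obtain ⟨t₁, h3, h4⟩ := exists_between hcon
    have h5 : Pth P a b l z (t₀ + (t₁ - t₀)) := e6b_ext hP ht₀ (by linarith) hl0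
      fun s h6 h7 => hf s h6 (by linarith)
    rw [add_sub_cancel] at h5
    exact absurd (hle t₁ ⟨by linarith, l, h5⟩) (not_le.2 h3)
  refine ⟨l, τ + t₀, ?_⟩
  rw [hcomm]
  refine ⟨hfr, fun i hi => ?_⟩
  obtain ⟨ε, hε, h3⟩ := e6b_ev (BFE.refl_in hP hτ hf hi).1
  have h4 : Pth P a b [i] (G a b l (S t₀ z)) (τ + ε) := by
    refine ⟨τ, hτ, by linarith, hf, hi, ?_⟩
    rw [add_sub_cancel_left]
    exact h3
  have h5 := BFE.pth_append hP.ne ht₀ (by linarith) hl0 h4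
  exact absurd (hle _ ⟨by linarith, _, h5⟩) (by linarith)

end BFE
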