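import Pool.Agent.BFE.Base
import Pool.Agent.BFE.E1a
import Pool.Agent.BFE.E1b
import Pool.Agent.BFE.E2a
import Pool.Agent.BFE.E3
import Pool.Agent.BFE.E5
import Pool.Agent.BFE.E6b
import Pool.Agent.BIL.L1b

/-! # BFE [E7]: the motion exists for almost all points -/

set_option autoImplicit false

open MeasureTheory Set Filter Topology

namespace BFE

open BIL

variable {n : ℕ} {P : Set ℂ} {a b : Fin n → ℂ}

private theorem e7_singleton (x : Ang) : volume ({x} : Set Ang) = 0 := by
  have h := AddCircle.measurePreserving_mk (2 * Real.pi) 0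
  have hm : MeasurableSet ((QuotientAddGroup.mk : ℝ → Ang) ⁻¹' {x}) :=
    h.measurable (measurableSet_singleton x)
  have h1 := h.measure_preimage (measurableSet_singleton x).nullMeasurableSet
  rw [← h1, Measure.restrict_apply hm]
  refine Set.Subsingleton.measure_zero (fun y hy z hz => ?_) _
  have e1 : (y : Ang) = x := hy.1
  have e2 : (z : Ang) = x := hz.1
  exact (AddCircle.coe_eq_coe_iff_of_mem_Ioc hy.2 hz.2).1 (e1.trans e2.symm)

private theorem e7_sub {s : Set Ang} (hs : s.Subsingleton) : volume s = 0 := by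
  rcases hs.eq_empty_or_singleton with h | ⟨x, h⟩
  · rw [h, measure_empty]
  · rw [h]
    exact e7_singleton x

private theorem e7_dir_inj : Function.Injective dir := by
  intro x y h
  exact AddCircle.injective_toCircle Real.two_pi_pos.ne' (Circle.ext h)

private theorem e7_dir_norm (θ : Ang) : ‖dir θ‖ = 1 := Circle.norm_coe _

private theorem e7_dir_cont : Continuous dir :=
  continuous_subtype_val.comp AddCircle.continuous_toCircle

private theorem e7_fib (w : ℂ) (hw : w ≠ 0) : volume {θ : Ang | cr w (dir θ) = 0} = 0 := by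
  have hsub : {θ : Ang | cr w (dir θ) = 0} ⊆
      {θ : Ang | dir θ = w / ‖w‖} ∪ {θ : Ang | dir θ = -(w / ‖w‖)} := by
    intro θ hθ
    have h1 : cr w (dir θ) = 0 := hθ
    have h2 := e7_dir_norm θ
    set d := dir θ with hd
    have h3 : d * (starRingEnd ℂ) d = 1 := by
      rw [Complex.mul_conj, Complex.normSq_eq_norm_sq, h2]
      norm_num
    obtain ⟨r, hr⟩ : ∃ r : ℝ, w * (starRingEnd ℂ) d = r := by
      refine ⟨(w * (starRingEnd ℂ) d).re, ?_⟩
      apply Complex.ext
      · simp
      · have : (w * (starRingEnd ℂ) d).im = -cr w d := by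
          simp only [cr, Complex.mul_im, Complex.conj_re, Complex.conj_im]
          ring
        rw [this, h1]
        simp
    have h4 : w = r * d := by
      calc w = w * ((starRingEnd ℂ) d * d) := by rw [mul_comm ((starRingEnd ℂ) d), h3, mul_one]
        _ = (w * (starRingEnd ℂ) d) * d := by ring
        _ = r * d := by rw [hr]
    have h5 : ‖w‖ = |r| := by
      rw [h4, norm_mul, h2, mul_one, Complex.norm_real, Real.norm_eq_abs]
    have hr0 : r ≠ 0 := by
      intro h0
      rw [h0, Complex.ofReal_zero, zero_mul] at h4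
      exact hw h4
    have hrC : (r : ℂ) ≠ 0 := Complex.ofReal_ne_zero.2 hr0
    rcases abs_choice r with h6 | h6
    · left
      show d = w / ‖w‖
      rw [h5, h6, h4, mul_comm (r : ℂ) d, mul_div_assoc, div_self hrC, mul_one]
    · right
      show d = -(w / ‖w‖)
      rw [h5, h6, h4, Complex.ofReal_neg, div_neg, neg_neg, mul_comm (r : ℂ) d, mul_div_assoc,
        div_self hrC, mul_one]
  refine measure_mono_null hsub (measure_union_null ?_ ?_)
  · exact e7_sub fun x hx y hy => e7_dir_inj (hx.trans hy.symm)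
  · exact e7_sub fun x hx y hy => e7_dir_inj (hx.trans hy.symm)

/-- [E7] rays through a point. -/
theorem ray_null (v : ℂ) :
    volume {z : ℂ × Ang | ∃ s : ℝ, (S s z).1 = v} = 0 := by
  have hsub : {z : ℂ × Ang | ∃ s : ℝ, (S s z).1 = v} ⊆
      {z : ℂ × Ang | cr (z.1 - v) (dir z.2) = 0} := by
    rintro ⟨x, θ⟩ ⟨s, hs⟩
    have hs' : x + (s : ℂ) * dir θ = v := hs
    show cr (x - v) (dir θ) = 0
    rw [← hs']
    simp only [cr, Complex.sub_re, Complex.sub_im, Complex.add_re, Complex.add_im, Complex.mul_re,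
      Complex.mul_im, Complex.ofReal_re, Complex.ofReal_im]
    ring
  have hcr : Continuous fun z : ℂ × Ang => cr (z.1 - v) (dir z.2) := by
    have h1 : Continuous fun z : ℂ × Ang => z.1 - v := continuous_fst.sub continuous_const
    have h2 : Continuous fun z : ℂ × Ang => dir z.2 := e7_dir_cont.comp continuous_snd
    exact ((Complex.continuous_re.comp h1).mul (Complex.continuous_im.comp h2)).sub
      ((Complex.continuous_im.comp h1).mul (Complex.continuous_re.comp h2))
  have hm : MeasurableSet {z : ℂ × Ang | cr (z.1 - v) (dir z.2) = 0} :=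
    (isClosed_singleton.preimage hcr).measurableSet
  refine measure_mono_null hsub ?_
  rw [Measure.volume_eq_prod, Measure.measure_prod_null hm]
  have hv : ∀ᵐ x : ℂ ∂volume, x ≠ v := by
    rw [ae_iff]
    have : {x : ℂ | ¬ x ≠ v} = {v} := by
      ext x
      simp
    rw [this]
    exact measure_singleton v
  filter_upwards [hv] with x hx
  exact e7_fib (x - v) (sub_ne_zero.2 hx)

private theorem e7_front (hP : IsPolygon P a b) : volume (frontier P) = 0 := by
  obtain ⟨C, hC, h⟩ := vol_frontier hP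
  have h1 : ∀ ε : ℝ, 0 < ε → ε ≤ 1 → volume (frontier P) ≤ ENNReal.ofReal (C * ε) := by
    intro ε he he1
    refine le_trans (measure_mono fun x hx => ?_) (h ε he he1)
    show Metric.infDist x (frontier P) ≤ ε
    rw [Metric.infDist_zero_of_mem hx]
    exact he.le
  by_contra h0
  have h2 : 0 < volume (frontier P) := pos_iff_ne_zero.2 h0
  have h3 : volume (frontier P) ≠ ⊤ := ne_top_of_le_ne_top ENNReal.ofReal_ne_top
    (h1 1 one_pos le_rfl)
  set r := (volume (frontier P)).toReal with hr
  have hr0 : 0 < r := ENNReal.toReal_pos h0 h3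
  have h4 := h1 (min 1 (r / (2 * C))) (lt_min one_pos (by positivity)) (min_le_left _ _)
  have h5 : C * min 1 (r / (2 * C)) ≤ r / 2 := by
    calc C * min 1 (r / (2 * C)) ≤ C * (r / (2 * C)) :=
          mul_le_mul_of_nonneg_left (min_le_right _ _) hC.le
      _ = r / 2 := by field_simp
  have h6 := h4.trans (ENNReal.ofReal_le_ofReal h5)
  rw [← ENNReal.ofReal_toReal h3, ← hr, ENNReal.ofReal_le_ofReal_iff (by positivity)] at h6
  linarith

private theorem e7_front_prod (hP : IsPolygon P a b) :
    volume ((frontier P ×ˢ univ : Set (ℂ × Ang))) = 0 := by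
  rw [Measure.volume_eq_prod, Measure.prod_prod, e7_front hP, zero_mul]

private theorem e7_cover (_hP : IsPolygon P a b) {x : ℂ} (hx : x ∈ P) (hf : x ∉ frontier P) :
    x ∈ interior P := by
  by_contra hi
  exact hf ⟨subset_closure hx, hi⟩

/-- [E7] -/
theorem Om_full (hP : IsPolygon P a b) (hd : Nd a b) :
    volume (((P ×ˢ univ) : Set (ℂ × Ang)) \ Om P a b) = 0 ∧ MeasurableSet (Om P a b) := by
  constructor
  · have hsub : ((P ×ˢ univ) : Set (ℂ × Ang)) \ Om P a b ⊆
        (frontier P ×ˢ univ : Set (ℂ × Ang)) ∪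
          ⋃ l : List (Fin n), (G a b l) ⁻¹'
            (⋃ v ∈ Vx P a b, {z : ℂ × Ang | ∃ s : ℝ, (S s z).1 = v}) := by
      rintro z ⟨hz, hzO⟩
      by_cases hf : z.1 ∈ frontier P
      · exact Or.inl ⟨hf, mem_univ _⟩
      · right
        obtain ⟨l, s, hs⟩ := BFE.not_Om hP (e7_cover hP hz.1 hf) hzO
        refine mem_iUnion.2 ⟨l, ?_⟩
        rw [mem_preimage]
        refine mem_iUnion₂.2 ⟨_, hs, s, ?_⟩
        rw [(BFE.G_facts hP.ne).2.2.1 l s z]
    refine measure_mono_null hsub (measure_union_null (e7_front_prod hP) ?_)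
    rw [measure_iUnion_null_iff]
    intro l
    have hG := (BFE.G_facts (a := a) (b := b) hP.ne).2.2.2.2.2 l
    refine hG.quasiMeasurePreserving.preimage_null ?_
    rw [measure_biUnion_null_iff (BFE.Vx_finite hP hd).countable]
    exact fun v _ => ray_null v
  · have h1 : Om P a b = ⋂ N : ℕ, ⋃ t : ℝ, ⋃ (_ : (N : ℝ) ≤ t), ⋃ l, W P a b l t := by
      ext z
      simp only [Om, mem_ofPred_eq, mem_iInter, mem_iUnion, exists_prop]
    rw [h1]
    refine MeasurableSet.iInter fun N => IsOpen.measurableSet ?_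
    exact isOpen_iUnion fun t => isOpen_iUnion fun _ => isOpen_iUnion fun l =>
      BFE.W_open hP l t

/-- [E7] for fixed `t` almost every point is in one of the sets `W`. -/
theorem W_full (hP : IsPolygon P a b) (hd : Nd a b) {t : ℝ} (ht : 0 ≤ t) :
    volume (((P ×ˢ univ) : Set (ℂ × Ang)) \ ⋃ l, W P a b l t) = 0 := by
  have hsub : ((P ×ˢ univ) : Set (ℂ × Ang)) \ ⋃ l, W P a b l t ⊆
      ((((P ×ˢ univ) : Set (ℂ × Ang)) \ Om P a b) ∪ (frontier P ×ˢ univ : Set (ℂ × Ang))) ∪
        ⋃ l : List (Fin n), (fun z => G a b l (S t z)) ⁻¹' (frontier P ×ˢ univ) := by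
    rintro z ⟨hz, hzW⟩
    by_cases hO : z ∈ Om P a b
    swap
    · exact Or.inl (Or.inl ⟨hz, hO⟩)
    by_cases hf : z.1 ∈ frontier P
    · exact Or.inl (Or.inr ⟨hf, mem_univ _⟩)
    right
    have hi : z.1 ∈ interior P := e7_cover hP hz.1 hf
    obtain ⟨N, hN⟩ := exists_nat_ge t
    obtain ⟨t', ht', l, hl⟩ := hO N
    obtain ⟨l₁, l₂, -, h1, -⟩ := BFE.pth_split hP.ne ht (hN.trans ht') hl.2.2.1
    have hz0 : ∀ᶠ s : ℝ in 𝓝[>] 0, (S s z).1 ∈ interior P := by
      have hc : Continuous fun s : ℝ => (S s z).1 :=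
        continuous_const.add (Complex.continuous_ofReal.mul continuous_const)
      have h0 : (S 0 z).1 ∈ interior P := by
        have e : (S 0 z).1 = z.1 := by
          show z.1 + ((0 : ℝ) : ℂ) * dir z.2 = z.1
          rw [Complex.ofReal_zero, zero_mul, add_zero]
        rw [e]
        exact hi
      exact nhdsWithin_le_nhds ((hc.continuousAt).eventually (isOpen_interior.mem_nhds h0))
    obtain ⟨-, h2⟩ := BFE.pth_end hP ht hz0 h1
    refine mem_iUnion.2 ⟨l₁, ?_⟩
    refine ⟨?_, mem_univ _⟩
    by_contra h3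
    apply hzW
    exact mem_iUnion.2 ⟨l₁, ht, hi, h1, e7_cover hP h2 h3⟩
  refine measure_mono_null hsub (measure_union_null (measure_union_null (Om_full hP hd).1
    (e7_front_prod hP)) ?_)
  rw [measure_iUnion_null_iff]
  intro l
  have hG := (BFE.G_facts (a := a) (b := b) hP.ne).2.2.2.2.2 l
  have hS := BFE.S_facts.2.2.2 t
  exact (hG.comp hS).quasiMeasurePreserving.preimage_null (e7_front_prod hP)

end BFE
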