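import Pool.Agent.BFE.Base
import Pool.Agent.BFE.E1a
import Pool.Agent.BFE.E1b
import Pool.Agent.BFE.E3
import Pool.Agent.BFE.E4
import Pool.Agent.BFE.E5
import Pool.Agent.BFE.E7

set_option autoImplicit false

open MeasureTheory Set Filter Topology

namespace BFE

open BIL

variable {n : ℕ} {P : Set ℂ} {a b : Fin n → ℂ}

theorem E8_gen {α ι : Type*} [MeasurableSpace α] [Countable ι] (μ : Measure α) (Q : Set α)
    (U : ι → Set α) (hU : ∀ i, MeasurableSet (U i)) (hd : Pairwise (Function.onFun Disjoint U))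
    (hs : ∀ i, U i ⊆ Q) (h0 : μ (Q \ ⋃ i, U i) = 0) {A : Set α} (hA : MeasurableSet A) :
    μ (Q ∩ A) = ∑' i, μ (U i ∩ A) := by
  rw [← measure_iUnion (fun i j hij => (hd hij).mono inter_subset_left inter_subset_left)
    (fun i => (hU i).inter hA)]
  apply le_antisymm
  · have h1 : Q ∩ A ⊆ (⋃ i, U i ∩ A) ∪ (Q \ ⋃ i, U i) := by
      rintro z ⟨hz, hzA⟩
      by_cases h : z ∈ ⋃ i, U i
      · obtain ⟨i, hi⟩ := mem_iUnion.1 h
        exact Or.inl (mem_iUnion.2 ⟨i, hi, hzA⟩)
      · exact Or.inr ⟨hz, h⟩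
    have h2 := (measure_mono (μ := μ) h1).trans (measure_union_le _ _)
    rw [h0, add_zero] at h2
    exact h2
  · exact measure_mono (iUnion_subset fun i => inter_subset_inter_left _ (hs i))

theorem E8_psi (hP : IsPolygon P a b) {t : ℝ} {l : List (Fin n)} {z : ℂ × Ang}
    (hz : z ∈ W P a b l t) : BFE.psi P a b t z = G a b l (S t z) := by
  classical
  have h : ∃ l, z ∈ W P a b l t := ⟨l, hz⟩
  have h1 : h.choose = l := BFE.pth_unique hP h.choose_spec.2.2.1 hz.2.2.1
  unfold BFE.psi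
  rw [dif_pos h, h1]

theorem E8_psi' {t : ℝ} {z : ℂ × Ang}
    (hz : ¬ ∃ l, z ∈ W P a b l t) : BFE.psi P a b t z = z := by
  classical
  unfold BFE.psi
  rw [dif_neg hz]

theorem E8_cont (hne : ∀ i, a i ≠ b i) (l : List (Fin n)) (t : ℝ) :
    Continuous fun z : ℂ × Ang => G a b l (S t z) := by
  have h1 : Continuous fun z : ℂ × Ang => S t z :=
    BFE.S_facts.2.2.1.comp (continuous_const.prodMk continuous_id)
  exact ((BFE.G_facts hne).2.2.2.2.1 l).comp h1

theorem E8_meas (hP : IsPolygon P a b) (t : ℝ) : Measurable (BFE.psi P a b t) := by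
  intro B hB
  have e : BFE.psi P a b t ⁻¹' B = (⋃ l, W P a b l t ∩ (fun z => G a b l (S t z)) ⁻¹' B) ∪
      ((⋃ l, W P a b l t)ᶜ ∩ B) := by
    ext z
    constructor
    · intro hz
      by_cases h : ∃ l, z ∈ W P a b l t
      · obtain ⟨l, hl⟩ := h
        refine Or.inl (mem_iUnion.2 ⟨l, hl, ?_⟩)
        have hz' : BFE.psi P a b t z ∈ B := hz
        rw [E8_psi hP hl] at hz'
        exact hz'
      · refine Or.inr ⟨?_, ?_⟩
        · intro h'
          exact h (mem_iUnion.1 h')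
        · have hz' : BFE.psi P a b t z ∈ B := hz
          rw [E8_psi' h] at hz'
          exact hz'
    · rintro (hz | ⟨hz, hzB⟩)
      · obtain ⟨l, hl, hB'⟩ := mem_iUnion.1 hz
        change BFE.psi P a b t z ∈ B
        rw [E8_psi hP hl]
        exact hB'
      · change BFE.psi P a b t z ∈ B
        rw [E8_psi' fun h => hz (mem_iUnion.2 h)]
        exact hzB
  rw [e]
  have hW : ∀ l, MeasurableSet (W P a b l t) := fun l => (BFE.W_open hP l t).measurableSet
  exact (MeasurableSet.iUnion fun l =>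
    (hW l).inter ((E8_cont hP.ne l t).measurable hB)).union
      ((MeasurableSet.iUnion hW).compl.inter hB)

theorem E8_sub {t : ℝ} (l : List (Fin n)) : W P a b l t ⊆ P ×ˢ (univ : Set Ang) :=
  fun _ hz => ⟨interior_subset hz.2.1, mem_univ _⟩

theorem E8_disj (hP : IsPolygon P a b) (t : ℝ) :
    Pairwise (Function.onFun Disjoint fun l => W P a b l t) := by
  intro l l' hll
  rw [Function.onFun, Set.disjoint_left]
  intro z hz hz'
  exact hll (BFE.pth_unique hP hz.2.2.1 hz'.2.2.1)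

theorem E8_pre (hP : IsPolygon P a b) {t : ℝ} (l : List (Fin n)) (z : ℂ × Ang) :
    z ∈ W P a b l t ↔ rv (G a b l (S t z)) ∈ W P a b l.reverse t := by
  constructor
  · exact fun h => BFE.W_rev hP h
  · intro h
    have h1 := BFE.W_rev hP h
    rw [List.reverse_reverse] at h1
    obtain ⟨-, g2, g3, g4, -, -⟩ := BFE.G_facts (n := n) (a := a) (b := b) hP.ne
    obtain ⟨s1, s2, -, -⟩ := BFE.S_facts
    obtain ⟨r1, r2, -, -, -⟩ := BFE.rv_facts
    have e : rv (G a b l.reverse (S t (rv (G a b l (S t z))))) = z := by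
      rw [← g4 l (S t z), r2, ← g3, g2, s1, add_neg_cancel, s2, r1]
    rw [e] at h1
    exact h1

theorem E8_step (hP : IsPolygon P a b) {t : ℝ} (l : List (Fin n)) {B : Set (ℂ × Ang)}
    (hB : MeasurableSet B) :
    volume (W P a b l t ∩ (fun z => G a b l (S t z)) ⁻¹' B) =
      volume (rv ⁻¹' (W P a b l.reverse t) ∩ B) := by
  have e : W P a b l t ∩ (fun z => G a b l (S t z)) ⁻¹' B =
      (fun z => G a b l (S t z)) ⁻¹' (rv ⁻¹' (W P a b l.reverse t) ∩ B) := by
    ext z
    constructor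
    · rintro ⟨h1, h2⟩
      exact ⟨(E8_pre hP l z).1 h1, h2⟩
    · rintro ⟨h1, h2⟩
      exact ⟨(E8_pre hP l z).2 h1, h2⟩
  have hm : MeasurePreserving (fun z => G a b l (S t z)) (volume : Measure (ℂ × Ang)) volume :=
    ((BFE.G_facts hP.ne).2.2.2.2.2 l).comp (BFE.S_facts.2.2.2 t)
  have hms : MeasurableSet (rv ⁻¹' (W P a b l.reverse t) ∩ B) :=
    ((BFE.rv_facts.2.2.1).measurable (BFE.W_open hP l.reverse t).measurableSet).inter hB
  rw [e, hm.measure_preimage hms.nullMeasurableSet]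

theorem E8_vol (hP : IsPolygon P a b) (hd : Nd a b) {t : ℝ} (ht : 0 ≤ t) {B : Set (ℂ × Ang)}
    (hB : MeasurableSet B) :
    volume ((P ×ˢ univ) ∩ BFE.psi P a b t ⁻¹' B) = volume ((P ×ˢ univ) ∩ B) := by
  have hW : ∀ l, MeasurableSet (W P a b l t) := fun l => (BFE.W_open hP l t).measurableSet
  have hrv : Measurable rv := (BFE.rv_facts.2.2.1).measurable
  rw [E8_gen volume (P ×ˢ univ) (fun l => W P a b l t) hW (E8_disj hP t) E8_sub
    (BFE.W_full hP hd ht) (E8_meas hP t hB)]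
  have e1 : ∀ l, volume (W P a b l t ∩ BFE.psi P a b t ⁻¹' B) =
      volume (rv ⁻¹' (W P a b l.reverse t) ∩ B) := by
    intro l
    rw [← E8_step hP l hB]
    refine congrArg _ ?_
    ext z
    constructor
    · rintro ⟨h1, h2⟩
      have h2' : BFE.psi P a b t z ∈ B := h2
      rw [E8_psi hP h1] at h2'
      exact ⟨h1, h2'⟩
    · rintro ⟨h1, h2⟩
      refine ⟨h1, ?_⟩
      change BFE.psi P a b t z ∈ B
      rw [E8_psi hP h1]
      exact h2
  have e2 : ∑' l, volume (W P a b l t ∩ BFE.psi P a b t ⁻¹' B) =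
      ∑' l, volume (rv ⁻¹' (W P a b l t) ∩ B) := by
    rw [tsum_congr e1]
    exact (List.reverse_involutive.toPerm).tsum_eq fun l => volume (rv ⁻¹' (W P a b l t) ∩ B)
  rw [e2]
  refine (E8_gen volume (P ×ˢ univ) (fun l => rv ⁻¹' W P a b l t) (fun l => hrv (hW l)) ?_ ?_ ?_
    hB).symm
  · intro l l' hll
    exact Disjoint.preimage rv (E8_disj hP t hll)
  · intro l z hz
    exact ⟨(E8_sub l hz).1, mem_univ _⟩
  · have e3 : (P ×ˢ (univ : Set Ang)) \ ⋃ l, rv ⁻¹' W P a b l t =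
        rv ⁻¹' ((P ×ˢ (univ : Set Ang)) \ ⋃ l, W P a b l t) := by
      rw [preimage_sdiff, preimage_iUnion]
      rfl
    have hPm : MeasurableSet (P ×ˢ (univ : Set Ang)) :=
      hP.compact.measurableSet.prod MeasurableSet.univ
    rw [e3, (BFE.rv_facts.2.2.2.1).measure_preimage
      (hPm.diff (MeasurableSet.iUnion hW)).nullMeasurableSet]
    exact BFE.W_full hP hd ht

/-- [E8] -/
theorem psi_facts (hP : IsPolygon P a b) (hd : Nd a b) {t : ℝ} (ht : 0 ≤ t) :
    (∀ l, ∀ z ∈ W P a b l t, BFE.psi P a b t z = G a b l (S t z)) ∧ Measurable (BFE.psi P a b t) ∧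
    MeasurePreserving (BFE.psi P a b t) (liou P) (liou P) := by
  have hPm : MeasurableSet (P ×ˢ (univ : Set Ang)) :=
    hP.compact.measurableSet.prod MeasurableSet.univ
  refine ⟨fun l z hz => E8_psi hP hz, E8_meas hP t, E8_meas hP t, ?_⟩
  refine Measure.ext fun B hB => ?_
  rw [Measure.map_apply (E8_meas hP t) hB, liou, ProbabilityTheory.cond_apply hPm,
    ProbabilityTheory.cond_apply hPm, E8_vol hP hd ht hB]

end BFE
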