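import Pool.Agent.BFE.Base

/-! # BFE: E9, uniqueness of orbits, translation in time, right continuity -/

set_option autoImplicit false

open MeasureTheory Set Filter Topology

namespace BFE

open BIL

variable {n : ℕ} {P : Set ℂ} {a b : Fin n → ℂ}

private theorem e9_right {γ : ℝ → ℂ × Ang} (h : IsOrbit P a b γ) (t : ℝ) :
    ∃ δ : ℝ, 0 < δ ∧ ∀ u, t < u → u ≤ t + δ →
      (γ u).2 = (γ t).2 ∧ (γ u).1 = (γ t).1 + (u - t) * dir (γ t).2 := by
  have h1 := (((h.finite t (t + 1)).subset (sdiff_subset (t := {t}))).isClosed).compl_mem_nhds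
    (x := t) (fun h => h.2 rfl)
  obtain ⟨ε, hε, h2⟩ := Metric.mem_nhds_iff.1 h1
  refine ⟨min (ε / 2) 1, by positivity, fun u hu hu' => h.free t u hu.le fun τ hτ hf => ?_⟩
  have h3 : u ≤ t + ε / 2 := hu'.trans (by gcongr; exact min_le_left _ _)
  have h4 : u ≤ t + 1 := hu'.trans (by gcongr; exact min_le_right _ _)
  have h5 : τ ∈ Metric.ball t ε := by
    rw [Metric.mem_ball, Real.dist_eq, abs_lt]
    constructor
    · linarith [hτ.1]
    · linarith [hτ.2]
  exact h2 h5 ⟨⟨⟨hτ.1.le, hτ.2.trans h4⟩, hf⟩, ne_of_gt hτ.1⟩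

private theorem e9_left {γ : ℝ → ℂ × Ang} (h : IsOrbit P a b γ) (t : ℝ) :
    ∃ δ : ℝ, 0 < δ ∧ ∀ u, t - δ ≤ u → u < t →
      (γ t).1 = (γ u).1 + (t - u) * dir (γ u).2 ∧
      (((γ t).1 ∉ frontier P ∧ (γ t).2 = (γ u).2) ∨
        ∃ i, (γ t).1 ∈ openSegment ℝ (a i) (b i) ∧ (∀ j, j ≠ i → (γ t).1 ∉ segment ℝ (a j) (b j)) ∧
          (γ t).2 = (2 : ℕ) • ang (b i - a i) - (γ u).2) := by
  have h1 := (((h.finite (t - 1) t).subset (sdiff_subset (t := {t}))).isClosed).compl_mem_nhds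
    (x := t) (fun h => h.2 rfl)
  obtain ⟨ε, hε, h2⟩ := Metric.mem_nhds_iff.1 h1
  have hnf : ∀ u v : ℝ, t - min (ε / 2) 1 ≤ u → v < t → ∀ τ ∈ Ioc u v, (γ τ).1 ∉ frontier P := by
    intro u v hu hv τ hτ hf
    have h3 : t - ε / 2 ≤ u := le_trans (by gcongr; exact min_le_left _ _) hu
    have h4 : t - 1 ≤ u := le_trans (by gcongr; exact min_le_right _ _) hu
    have h5 : τ ∈ Metric.ball t ε := by
      rw [Metric.mem_ball, Real.dist_eq, abs_lt]
      constructor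
      · linarith [hτ.1]
      · linarith [hτ.2]
    exact h2 h5 ⟨⟨⟨h4.trans hτ.1.le, hτ.2.trans hv.le⟩, hf⟩, ne_of_lt (hτ.2.trans_lt hv)⟩
  have hpos : ∀ u : ℝ, t - min (ε / 2) 1 ≤ u → u < t →
      (γ t).1 = (γ u).1 + (t - u) * dir (γ u).2 := by
    intro u hu hut
    have h3 : Tendsto (fun v : ℝ => (γ v).1) (𝓝[<] t) (𝓝 (γ t).1) :=
      (h.cont.tendsto t).mono_left nhdsWithin_le_nhds
    have h4 : Tendsto (fun v : ℝ => (γ u).1 + ((v : ℂ) - u) * dir (γ u).2) (𝓝[<] t)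
        (𝓝 ((γ u).1 + ((t : ℂ) - u) * dir (γ u).2)) := by
      have h5 : Continuous fun v : ℝ => (γ u).1 + ((v : ℂ) - u) * dir (γ u).2 := by fun_prop
      exact (h5.tendsto t).mono_left nhdsWithin_le_nhds
    refine tendsto_nhds_unique h3 (h4.congr' ?_)
    filter_upwards [Ioo_mem_nhdsLT hut] with v hv
    exact (h.free u v hv.1.le (hnf u v hu hv.2)).2.symm
  by_cases hf : (γ t).1 ∈ frontier P
  · obtain ⟨i, hi, hj, ε', hε', hr⟩ := h.refl t hf
    refine ⟨min (min (ε / 2) 1) (ε' / 2), by positivity, fun u hu hut => ⟨hpos u ?_ hut, Or.inr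
      ⟨i, hi, hj, hr u ⟨?_, hut⟩⟩⟩⟩
    · have h3 := min_le_left (min (ε / 2) 1) (ε' / 2)
      linarith
    · have h3 := min_le_right (min (ε / 2) 1) (ε' / 2)
      linarith
  · refine ⟨min (ε / 2) 1, by positivity, fun u hu hut => ⟨hpos u hu hut, Or.inl ⟨hf, ?_⟩⟩⟩
    refine (h.free u t hut.le fun τ hτ => ?_).1
    rcases lt_or_eq_of_le hτ.2 with h3 | h3
    · exact hnf u τ hu h3 τ ⟨hτ.1, le_rfl⟩
    · rw [h3]; exact hf

private theorem e9_loc (hP : IsPolygon P a b) {γ γ' : ℝ → ℂ × Ang} (h : IsOrbit P a b γ)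
    (h' : IsOrbit P a b γ') (t : ℝ) : ∀ᶠ u in 𝓝 t, (γ u = γ' u) = (γ t = γ' t) := by
  obtain ⟨δ₁, hδ₁, h1⟩ := e9_right h t
  obtain ⟨δ₂, hδ₂, h2⟩ := e9_right h' t
  obtain ⟨δ₃, hδ₃, h3⟩ := e9_left h t
  obtain ⟨δ₄, hδ₄, h4⟩ := e9_left h' t
  have hopen : Ioo (t - min δ₃ δ₄) (t + min δ₁ δ₂) ∈ 𝓝 t :=
    Ioo_mem_nhds (by have := lt_min hδ₃ hδ₄; linarith) (by have := lt_min hδ₁ hδ₂; linarith)
  filter_upwards [hopen] with u hu
  rcases lt_trichotomy u t with hut | hut | hut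
  · -- u < t
    have hu3 : t - δ₃ ≤ u := le_trans (by gcongr; exact min_le_left _ _) hu.1.le
    have hu4 : t - δ₄ ≤ u := le_trans (by gcongr; exact min_le_right _ _) hu.1.le
    obtain ⟨p1, a1⟩ := h3 u hu3 hut
    obtain ⟨p2, a2⟩ := h4 u hu4 hut
    have hsub : ∀ (i : Fin n) (x : ℂ), x ∈ openSegment ℝ (a i) (b i) → x ∈ frontier P := by
      intro i x hx
      rw [hP.frontier_eq]
      exact mem_iUnion.2 ⟨i, openSegment_subset_segment ℝ _ _ hx⟩
    have hx : (γ t).1 = (γ' t).1 → ((γ t).2 = (γ' t).2 ↔ (γ u).2 = (γ' u).2) := by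
      intro hx
      rcases a1 with ⟨f1, e1⟩ | ⟨i, i1, j1, e1⟩
      · rcases a2 with ⟨f2, e2⟩ | ⟨i', i2, j2, e2⟩
        · rw [e1, e2]
        · exact absurd (hx ▸ hsub i' _ i2) f1
      · rcases a2 with ⟨f2, e2⟩ | ⟨i', i2, j2, e2⟩
        · exact absurd (hx ▸ hsub i _ i1) f2
        · have hii : i' = i := by
            by_contra hne
            exact j1 i' hne (hx ▸ openSegment_subset_segment ℝ _ _ i2)
          subst hii
          rw [e1, e2]
          exact sub_right_inj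
    refine propext ⟨fun he => ?_, fun he => ?_⟩
    · have e1 : (γ t).1 = (γ' t).1 := by rw [p1, p2, he]
      exact Prod.ext e1 ((hx e1).2 (by rw [he]))
    · have e1 : (γ u).2 = (γ' u).2 := (hx (by rw [he])).1 (by rw [he])
      refine Prod.ext ?_ e1
      have e2 : (γ u).1 + (t - u) * dir (γ u).2 = (γ' u).1 + (t - u) * dir (γ' u).2 := by
        rw [← p1, ← p2, he]
      rw [e1] at e2
      exact add_right_cancel e2
  · rw [hut]
  · -- t < u
    have hu1 : u ≤ t + δ₁ := hu.2.le.trans (by gcongr; exact min_le_left _ _)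
    have hu2 : u ≤ t + δ₂ := hu.2.le.trans (by gcongr; exact min_le_right _ _)
    obtain ⟨a1, p1⟩ := h1 u hut hu1
    obtain ⟨a2, p2⟩ := h2 u hut hu2
    refine propext ⟨fun he => ?_, fun he => ?_⟩
    · have e1 : (γ t).2 = (γ' t).2 := by rw [← a1, ← a2, he]
      refine Prod.ext ?_ e1
      have e2 : (γ t).1 + (u - t) * dir (γ t).2 = (γ' t).1 + (u - t) * dir (γ' t).2 := by
        rw [← p1, ← p2, he]
      rw [e1] at e2
      exact add_right_cancel e2
    · refine Prod.ext ?_ ?_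
      · rw [p1, p2, he]
      · rw [a1, a2, he]

/-- [E9] uniqueness. -/
theorem orbit_unique (hP : IsPolygon P a b) {γ γ' : ℝ → ℂ × Ang} (h : IsOrbit P a b γ)
    (h' : IsOrbit P a b γ') {t₀ : ℝ} (h0 : γ t₀ = γ' t₀) : γ = γ' := by
  have hlc : IsLocallyConstant fun u : ℝ => (γ u = γ' u) :=
    (IsLocallyConstant.iff_eventually_eq _).2 fun t => e9_loc hP h h' t
  funext u
  have h1 : (γ u = γ' u) = (γ t₀ = γ' t₀) := hlc.apply_eq_of_preconnectedSpace u t₀
  rw [h1]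
  exact h0

/-- [E9] translation in time; right continuity. -/
theorem orbit_shift (hP : IsPolygon P a b) {γ : ℝ → ℂ × Ang} (h : IsOrbit P a b γ) :
    (∀ s : ℝ, IsOrbit P a b fun t => γ (s + t)) ∧
    ∀ t : ℝ, Tendsto γ (𝓝[>] t) (𝓝 (γ t)) := by
  constructor
  · intro s
    refine ⟨fun t => h.mem (s + t), ?_, ?_, ?_, ?_⟩
    · exact h.cont.comp (continuous_const.add continuous_id)
    · intro u v
      refine ((h.finite (s + u) (s + v)).preimage ((add_right_injective s).injOn)).subset ?_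
      rintro τ ⟨hτ, hf⟩
      exact ⟨⟨by linarith [hτ.1], by linarith [hτ.2]⟩, hf⟩
    · intro u v huv hf
      have h1 := h.free (s + u) (s + v) (by linarith) (fun τ hτ => by
        have h2 := hf (τ - s) ⟨by linarith [hτ.1], by linarith [hτ.2]⟩
        have h3 : s + (τ - s) = τ := by ring
        rw [h3] at h2
        exact h2)
      refine ⟨h1.1, ?_⟩
      have h4 : (((s + v : ℝ) : ℂ) - ((s + u : ℝ) : ℂ)) = (v : ℂ) - u := by push_cast; ring
      have h5 := h1.2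
      rw [h4] at h5
      exact h5
    · intro τ hf
      obtain ⟨i, hi, hj, ε, hε, hr⟩ := h.refl (s + τ) hf
      refine ⟨i, hi, hj, ε, hε, fun v hv => hr (s + v) ⟨by linarith [hv.1], by linarith [hv.2]⟩⟩
  · intro t
    obtain ⟨δ, hδ, h1⟩ := e9_right h t
    have h2 : Tendsto (fun u : ℝ => ((γ t).1 + ((u : ℂ) - t) * dir (γ t).2, (γ t).2)) (𝓝[>] t)
        (𝓝 (γ t)) := by
      have h3 : Continuous fun u : ℝ => ((γ t).1 + ((u : ℂ) - t) * dir (γ t).2, (γ t).2) := by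
        fun_prop
      have h4 := (h3.tendsto t).mono_left (nhdsWithin_le_nhds (s := Ioi t))
      have h5 : ((γ t).1 + ((t : ℂ) - t) * dir (γ t).2, (γ t).2) = γ t := by
        rw [sub_self, zero_mul, add_zero]
      rw [h5] at h4
      exact h4
    refine h2.congr' ?_
    have h6 : t < t + δ := by linarith
    filter_upwards [Ioo_mem_nhdsGT h6] with u hu
    obtain ⟨e1, e2⟩ := h1 u hu.1 hu.2.le
    refine Prod.ext ?_ ?_
    · exact e2.symm
    · exact e1.symm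

end BFE
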