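import Pool.Agent.BFE.Base
import Pool.Agent.BFE.E10
import Pool.Agent.BFE.E11
import Pool.Agent.BFE.E1a
import Pool.Agent.BFE.E3
import Pool.Agent.BFE.E7
import Pool.Agent.BFE.E8
import Pool.Agent.BFE.E9

/-! # BFE: E12, the billiard flow exists -/

set_option autoImplicit false

open MeasureTheory Set Filter Topology

namespace BFE

open BIL

variable {n : ℕ} {P : Set ℂ} {a b : Fin n → ℂ}

private theorem e12_meas (hP : IsPolygon P a b) :
    MeasurableSet ((P ×ˢ univ) : Set (ℂ × Ang)) :=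
  hP.compact.isClosed.measurableSet.prod MeasurableSet.univ

/-- null sets -/
private theorem e12_ae (hP : IsPolygon P a b) {T : Set (ℂ × Ang)}
    (h : volume (((P ×ˢ univ) : Set (ℂ × Ang)) \ T) = 0) : ∀ᵐ z ∂(liou P), z ∈ T := by
  rw [ae_iff]
  show liou P Tᶜ = 0
  rw [liou, ProbabilityTheory.cond_apply (e12_meas hP)]
  rw [← sdiff_eq, h, mul_zero]

private theorem e12_rv_pre : rv ⁻¹' ((P ×ˢ univ) : Set (ℂ × Ang)) = (P ×ˢ univ : Set (ℂ × Ang)) := by
  ext z
  simp [rv]

private theorem e12_rv_mp (hP : IsPolygon P a b) : MeasurePreserving rv (liou P) (liou P) := by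
  have h1 := (BFE.rv_facts).2.2.2.1.restrict_preimage (e12_meas hP)
  rw [e12_rv_pre] at h1
  exact h1.smul_measure _

private theorem e12_rv_null (hP : IsPolygon P a b) {T : Set (ℂ × Ang)}
    (h : volume (((P ×ˢ univ) : Set (ℂ × Ang)) \ T) = 0) :
    volume (((P ×ˢ univ) : Set (ℂ × Ang)) \ rv ⁻¹' T) = 0 := by
  have h1 := (BFE.rv_facts).2.2.2.1.quasiMeasurePreserving.preimage_null h
  rw [preimage_sdiff, e12_rv_pre] at h1
  exact h1

/-- for all but finitely many times the point is in one of the sets `W` -/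
private theorem e12_fin (hP : IsPolygon P a b) {z : ℂ × Ang} (hz : z ∈ Om P a b) (N : ℕ) :
    {s : ℝ | s ∈ Icc (0 : ℝ) N ∧ ¬ ∃ l, z ∈ W P a b l s}.Finite := by
  obtain ⟨γ, h0, hmem, hcont, hfin, hfree, hrefl, hG⟩ := BFE.half_orbit hP hz
  refine (hfin 0 N le_rfl).subset ?_
  rintro s ⟨hs, hns⟩
  refine ⟨hs, ?_⟩
  by_contra hf
  apply hns
  obtain ⟨t, hNt, l, hl⟩ := hz N
  obtain ⟨l₁, l₂, -, h1, h2⟩ := BFE.pth_split hP.ne hs.1 (hs.2.trans hNt) hl.2.2.1
  have h3 : γ s = G a b l₁ (S s z) := hG l₁ s hs.1 h1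
  refine ⟨l₁, hs.1, hl.2.1, h1, ?_⟩
  rw [← h3]
  have h4 : (γ s).1 ∈ closure P := subset_closure (hmem s hs.1)
  rw [closure_eq_interior_union_frontier] at h4
  rcases h4 with h4 | h4
  · exact h4
  · exact absurd h4 hf

private theorem e12_ev (hP : IsPolygon P a b) {z : ℂ × Ang} (hz : z ∈ Om P a b) {t : ℝ}
    (ht : 0 ≤ t) : ∀ᶠ s : ℝ in 𝓝[>] t, ∃ l, z ∈ W P a b l s := by
  obtain ⟨N, hN⟩ := exists_nat_gt t
  have h1 := e12_fin hP hz N
  have h2 : ∀ᶠ s : ℝ in 𝓝[≠] t, s ∉ {s : ℝ | s ∈ Icc (0 : ℝ) N ∧ ¬ ∃ l, z ∈ W P a b l s} := by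
    have h3 := (h1.subset (sdiff_subset (t := {t}))).isClosed.compl_mem_nhds
      (x := t) (fun h => h.2 rfl)
    rw [eventually_nhdsWithin_iff]
    filter_upwards [h3] with s hs hst hs'
    exact hs ⟨hs', hst⟩
  have h4 : ∀ᶠ s : ℝ in 𝓝[>] t, s ∉ {s : ℝ | s ∈ Icc (0 : ℝ) N ∧ ¬ ∃ l, z ∈ W P a b l s} :=
    h2.filter_mono (nhdsWithin_mono t fun s hs => ne_of_gt hs)
  filter_upwards [h4, Ioo_mem_nhdsGT hN] with s hs hsN
  by_contra hc
  exact hs ⟨⟨ht.trans hsN.1.le, hsN.2.le⟩, hc⟩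

private theorem e12_ev' (hP : IsPolygon P a b) {z : ℂ × Ang} (hz : z ∈ Om P a b) {t : ℝ}
    (ht : 0 < t) : ∀ᶠ s : ℝ in 𝓝[<] t, ∃ l, z ∈ W P a b l s := by
  obtain ⟨N, hN⟩ := exists_nat_gt t
  have h1 := e12_fin hP hz N
  have h2 : ∀ᶠ s : ℝ in 𝓝[≠] t, s ∉ {s : ℝ | s ∈ Icc (0 : ℝ) N ∧ ¬ ∃ l, z ∈ W P a b l s} := by
    have h3 := (h1.subset (sdiff_subset (t := {t}))).isClosed.compl_mem_nhds
      (x := t) (fun h => h.2 rfl)
    rw [eventually_nhdsWithin_iff]
    filter_upwards [h3] with s hs hst hs'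
    exact hs ⟨hs', hst⟩
  have h4 : ∀ᶠ s : ℝ in 𝓝[<] t, s ∉ {s : ℝ | s ∈ Icc (0 : ℝ) N ∧ ¬ ∃ l, z ∈ W P a b l s} :=
    h2.filter_mono (nhdsWithin_mono t fun s hs => ne_of_lt hs)
  filter_upwards [h4, Ioo_mem_nhdsLT ht] with s hs hsN
  by_contra hc
  exact hs ⟨⟨hsN.1.le, (hsN.2.trans hN).le⟩, hc⟩

/-- the motion for positive and negative times -/
private noncomputable def e12_psi (P : Set ℂ) (a b : Fin n → ℂ) (t : ℝ) (z : ℂ × Ang) : ℂ × Ang :=
  if 0 ≤ t then BFE.psi P a b t z else rv (BFE.psi P a b (-t) (rv z))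

private theorem e12_psi_mp (hP : IsPolygon P a b) (hd : Nd a b) (t : ℝ) :
    MeasurePreserving (e12_psi P a b t) (liou P) (liou P) := by
  by_cases ht : 0 ≤ t
  · have h1 : e12_psi P a b t = BFE.psi P a b t := by
      funext z
      exact if_pos ht
    rw [h1]
    exact (BFE.psi_facts hP hd ht).2.2
  · have h1 : e12_psi P a b t = rv ∘ BFE.psi P a b (-t) ∘ rv := by
      funext z
      exact if_neg ht
    rw [h1]
    have ht' : 0 ≤ -t := by linarith
    exact (e12_rv_mp hP).comp ((BFE.psi_facts hP hd ht').2.2.comp (e12_rv_mp hP))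

private def e12_Om (P : Set ℂ) (a b : Fin n → ℂ) : Set (ℂ × Ang) := Om P a b ∩ rv ⁻¹' Om P a b

private theorem e12_Om_meas (hP : IsPolygon P a b) (hd : Nd a b) :
    MeasurableSet (e12_Om P a b) :=
  (BFE.Om_full hP hd).2.inter (BFE.rv_facts.2.2.1.measurable (BFE.Om_full hP hd).2)

private theorem e12_Om_ae (hP : IsPolygon P a b) (hd : Nd a b) :
    ∀ᵐ z ∂(liou P), z ∈ e12_Om P a b := by
  have h1 := e12_ae hP (BFE.Om_full hP hd).1
  have h2 := e12_ae hP (e12_rv_null hP (BFE.Om_full hP hd).1)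
  filter_upwards [h1, h2] with z hz1 hz2
  exact ⟨hz1, hz2⟩

/-- [E12] the billiard flow of a polygon exists. -/
theorem exists_flow (hP : IsPolygon P a b) (hd : Nd a b) :
    ∃ φ : ℝ → ℂ × Ang → ℂ × Ang, IsBilliardFlow P a b φ := by
  classical
  have key : ∀ z : ℂ × Ang, ∃ γ : ℝ → ℂ × Ang, γ 0 = z ∧ (z ∈ e12_Om P a b → IsOrbit P a b γ ∧
      (∀ (l : List (Fin n)) (t : ℝ), z ∈ W P a b l t → γ t = G a b l (S t z)) ∧
      ∀ (l : List (Fin n)) (t : ℝ), rv z ∈ W P a b l t → γ (-t) = rv (G a b l (S t (rv z)))) ∧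
      (z ∉ e12_Om P a b → ∀ t, γ t = z) := by
    intro z
    by_cases hz : z ∈ e12_Om P a b
    · obtain ⟨γ, h1, h2, h3, h4⟩ := BFE.full_orbit hP hz.1 hz.2
      exact ⟨γ, h2, fun _ => ⟨h1, h3, h4⟩, fun h => absurd hz h⟩
    · exact ⟨fun _ => z, rfl, fun h => absurd h hz, fun _ _ => rfl⟩
  choose γ hγ0 hγ hγ' using key
  -- the value at a time at which the position is in the interior
  have hval : ∀ (z : ℂ × Ang), z ∈ e12_Om P a b → ∀ s : ℝ, 0 ≤ s → (∃ l, z ∈ W P a b l s) →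
      γ z s = e12_psi P a b s z := by
    intro z hz s hs hl
    obtain ⟨l, hl⟩ := hl
    rw [e12_psi, if_pos hs, (BFE.psi_facts hP hd hs).1 l z hl]
    exact (hγ z hz).2.1 l s hl
  have hval' : ∀ (z : ℂ × Ang), z ∈ e12_Om P a b → ∀ s : ℝ, 0 < s → (∃ l, rv z ∈ W P a b l s) →
      γ z (-s) = e12_psi P a b (-s) z := by
    intro z hz s hs hl
    obtain ⟨l, hl⟩ := hl
    rw [e12_psi, if_neg (by linarith), neg_neg, (BFE.psi_facts hP hd hs.le).1 l _ hl]
    exact (hγ z hz).2.2 l s hl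
  -- almost everywhere equality
  have hae : ∀ t : ℝ, (fun z => γ z t) =ᵐ[liou P] e12_psi P a b t := by
    intro t
    by_cases ht : 0 ≤ t
    · filter_upwards [e12_Om_ae hP hd, e12_ae hP (BFE.W_full hP hd ht)] with z hz hW
      rw [mem_iUnion] at hW
      exact hval z hz t ht hW
    · have ht' : 0 < -t := by linarith
      filter_upwards [e12_Om_ae hP hd, e12_ae hP (e12_rv_null hP (BFE.W_full hP hd ht'.le))]
        with z hz hW
      have hW' : rv z ∈ ⋃ l, W P a b l (-t) := hW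
      rw [mem_iUnion] at hW'
      have h1 := hval' z hz (-t) ht' hW'
      rw [neg_neg] at h1
      exact h1
  -- measurability
  have hmeas : ∀ t : ℝ, Measurable fun z => γ z t := by
    intro t
    have hu : Tendsto (fun m : ℕ => t + 1 / ((m : ℝ) + 1)) atTop (𝓝[>] t) := by
      refine tendsto_nhdsWithin_iff.2 ⟨?_, Eventually.of_forall fun m => ?_⟩
      · have h1 := (tendsto_const_nhds (x := t)).add
          (tendsto_one_div_add_atTop_nhds_zero_nat (𝕜 := ℝ))
        rwa [add_zero] at h1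
      · have : (0 : ℝ) < 1 / ((m : ℝ) + 1) := by positivity
        show t < _
        linarith
    refine measurable_of_tendsto_metrizable
      (f := fun (m : ℕ) (z : ℂ × Ang) => if z ∈ e12_Om P a b then
        e12_psi P a b (t + 1 / ((m : ℝ) + 1)) z else z) ?_ ?_
    · intro m
      exact Measurable.ite (e12_Om_meas hP hd) (e12_psi_mp hP hd _).measurable measurable_id
    · rw [tendsto_pi_nhds]
      intro z
      by_cases hz : z ∈ e12_Om P a b
      · have h1 : Tendsto (fun m : ℕ => γ z (t + 1 / ((m : ℝ) + 1))) atTop (𝓝 (γ z t)) :=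
          ((BFE.orbit_shift hP (hγ z hz).1).2 t).comp hu
        refine h1.congr' ?_
        have h2 : ∀ᶠ s : ℝ in 𝓝[>] t, γ z s = e12_psi P a b s z := by
          by_cases ht : 0 ≤ t
          · filter_upwards [e12_ev hP hz.1 ht, self_mem_nhdsWithin] with s hs hst
            exact hval z hz s (ht.trans (le_of_lt hst)) hs
          · have ht' : 0 < -t := by linarith
            have h3 := e12_ev' hP hz.2 ht'
            have h4 : Tendsto (fun s : ℝ => -s) (𝓝[>] t) (𝓝[<] (-t)) := by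
              refine tendsto_nhdsWithin_iff.2 ⟨?_, ?_⟩
              · exact (continuous_neg.tendsto t).mono_left nhdsWithin_le_nhds
              · filter_upwards [self_mem_nhdsWithin] with s hs
                have hs' : t < s := hs
                show -s < -t
                linarith
            have h5 := h4.eventually h3
            have h6 : ∀ᶠ s : ℝ in 𝓝[>] t, s < 0 :=
              (Ioo_mem_nhdsGT (by linarith : t < 0)) |> fun h => by
                filter_upwards [h] with s hs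
                exact hs.2
            filter_upwards [h5, h6] with s hs hs0
            have h7 := hval' z hz (-s) (by linarith) hs
            rw [neg_neg] at h7
            exact h7
        filter_upwards [hu.eventually h2] with m hm
        rw [if_pos hz]
        exact hm
      · simp only [if_neg hz, hγ' z hz]
        exact tendsto_const_nhds
  have hmp : ∀ t : ℝ, MeasurePreserving (fun z => γ z t) (liou P) (liou P) := by
    intro t
    refine ⟨hmeas t, ?_⟩
    rw [Measure.map_congr (hae t)]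
    exact (e12_psi_mp hP hd t).map_eq
  refine ⟨fun t z => γ z t, ⟨hmp, Eventually.of_forall hγ0, ?_, ?_⟩⟩
  · intro s t
    have h1 : ∀ᵐ z ∂(liou P), γ z t ∈ e12_Om P a b :=
      (hmp t).quasiMeasurePreserving.ae (e12_Om_ae hP hd)
    filter_upwards [e12_Om_ae hP hd, h1] with z hz hz'
    have h2 := BFE.orbit_unique hP (hγ _ hz').1 ((BFE.orbit_shift hP (hγ z hz).1).1 t)
      (t₀ := 0) (by rw [hγ0, add_zero])
    have h3 := congrFun h2 s
    rw [h3, add_comm]
  · filter_upwards [e12_Om_ae hP hd] with z hz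
    exact (hγ z hz).1

end BFE
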