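import Pool.Agent.BFE.Base
import Pool.Agent.BFE.E10
import Pool.Agent.BFE.E11
import Pool.Agent.BFE.E12
import Pool.Agent.BFE.E1a
import Pool.Agent.BFE.E1b
import Pool.Agent.BFE.E2a
import Pool.Agent.BFE.E2b
import Pool.Agent.BFE.E3
import Pool.Agent.BFE.E4
import Pool.Agent.BFE.E5
import Pool.Agent.BFE.E6a
import Pool.Agent.BFE.E6b
import Pool.Agent.BFE.E7
import Pool.Agent.BFE.E8
import Pool.Agent.BFE.E9
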