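import Pool.Agent.BFE.Defs

/-! # BFE: the motion at a fixed time -/

set_option autoImplicit false

open MeasureTheory Set Filter Topology

namespace BFE

open BIL

variable {n : ℕ} {P : Set ℂ} {a b : Fin n → ℂ}

/-- The motion at the time `t` at which the position is in the interior (junk value otherwise). -/
noncomputable def psi (P : Set ℂ) (a b : Fin n → ℂ) (t : ℝ) (z : ℂ × Ang) : ℂ × Ang := by
  classical exact if h : ∃ l, z ∈ W P a b l t then G a b h.choose (S t z) else z

end BFE
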