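import Pool.Agent.BIL.Defs

/-!
# MP_613dd8_an [BFE]: existence of the billiard flow of a polygon, definitions
-/

set_option autoImplicit false

open MeasureTheory Set Filter Topology

namespace BFE

open BIL

noncomputable section

/-- Different sides have at most finitely many common points. -/
def Nd {n : ℕ} (a b : Fin n → ℂ) : Prop :=
  ∀ i j, i ≠ j → (segment ℝ (a i) (b i) ∩ segment ℝ (a j) (b j)).Finite

/-- `x` is in the interior of the side `i` and in no other side. -/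
def Reg {n : ℕ} (a b : Fin n → ℂ) (i : Fin n) (x : ℂ) : Prop :=
  x ∈ openSegment ℝ (a i) (b i) ∧ ∀ j, j ≠ i → x ∉ segment ℝ (a j) (b j)

/-- The bad boundary points. -/
def Vx {n : ℕ} (P : Set ℂ) (a b : Fin n → ℂ) : Set ℂ := {v | v ∈ frontier P ∧ ∀ i, ¬ Reg a b i v}

/-- The cross product. -/
def cr (x y : ℂ) : ℝ := x.re * y.im - x.im * y.re

/-- The free motion. -/
def S (t : ℝ) (z : ℂ × Ang) : ℂ × Ang := (z.1 + (t : ℂ) * dir z.2, z.2)

/-- The reflection in the line of the side `i`. -/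
def rho {n : ℕ} (a b : Fin n → ℂ) (i : Fin n) (z : ℂ × Ang) : ℂ × Ang :=
  (a i + (b i - a i) / (starRingEnd ℂ) (b i - a i) * (starRingEnd ℂ) (z.1 - a i),
    (2 : ℕ) • ang (b i - a i) - z.2)

/-- Time reversal. -/
def rv (z : ℂ × Ang) : ℂ × Ang := (z.1, z.2 + ((Real.pi : ℝ) : Ang))

/-- The composition of the reflections of a word. -/
def G {n : ℕ} (a b : Fin n → ℂ) : List (Fin n) → ℂ × Ang → ℂ × Ang
  | [], z => z
  | i :: l, z => G a b l (rho a b i z)

/-- The motion started at `z` has in the time interval `(0, t]` exactly the collisions `l`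
(and the state at time `t` is `G a b l (S t z)`). -/
def Pth {n : ℕ} (P : Set ℂ) (a b : Fin n → ℂ) : List (Fin n) → ℂ × Ang → ℝ → Prop
  | [], z, t => ∀ s : ℝ, 0 < s → s ≤ t → (S s z).1 ∈ interior P
  | i :: l, z, t => ∃ τ : ℝ, 0 < τ ∧ τ ≤ t ∧ (∀ s : ℝ, 0 < s → s < τ → (S s z).1 ∈ interior P) ∧
      Reg a b i (S τ z).1 ∧ Pth P a b l (rho a b i (S τ z)) (t - τ)

/-- The points of the interior that have the collisions `l` up to time `t` and are in the interior at
time `t`. -/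
def W {n : ℕ} (P : Set ℂ) (a b : Fin n → ℂ) (l : List (Fin n)) (t : ℝ) : Set (ℂ × Ang) :=
  {z | 0 ≤ t ∧ z.1 ∈ interior P ∧ Pth P a b l z t ∧ (G a b l (S t z)).1 ∈ interior P}

/-- The points with an infinite forward motion. -/
def Om {n : ℕ} (P : Set ℂ) (a b : Fin n → ℂ) : Set (ℂ × Ang) :=
  {z | ∀ N : ℕ, ∃ t : ℝ, (N : ℝ) ≤ t ∧ ∃ l, z ∈ W P a b l t}

end

end BFE
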